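import Mathlib

/-!
# Decreasing sequences of unions of dyadic cells
-/

namespace Pool.Agent.H80.Luzin

open MeasureTheory Set

/-- the union of the cells of level `c` in `K` -/
def GK (K : ℕ → ℕ → Prop) (c : ℕ) : Set ℝ :=
  {z | 0 ≤ z ∧ ⌊z * 2 ^ c⌋₊ < 2 ^ c ∧ K c ⌊z * 2 ^ c⌋₊}

theorem mem_GK {K : ℕ → ℕ → Prop} {c : ℕ} {z : ℝ} :
    z ∈ GK K c ↔ 0 ≤ z ∧ ⌊z * 2 ^ c⌋₊ < 2 ^ c ∧ K c ⌊z * 2 ^ c⌋₊ := by
  rw [GK, mem_ofPred_eq]

open Classical in
/-- the number of cells of level `c` in `K` -/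
noncomputable def cntK (K : ℕ → ℕ → Prop) (c : ℕ) : ℕ :=
  ((Finset.range (2 ^ c)).filter (fun i => K c i)).card

theorem floor_eq {z : ℝ} {c i : ℕ} (hz : 0 ≤ z) :
    ⌊z * 2 ^ c⌋₊ = i ↔ z ∈ Ico ((i : ℝ) / 2 ^ c) ((i + 1) / 2 ^ c) := by
  rw [Nat.floor_eq_iff (by positivity), mem_Ico, div_le_iff₀ (by positivity),
    lt_div_iff₀ (by positivity)]

open Classical in
theorem GK_eq (K : ℕ → ℕ → Prop) (c : ℕ) :
    GK K c = ⋃ i ∈ (Finset.range (2 ^ c)).filter (fun i => K c i),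
      Ico ((i : ℝ) / 2 ^ c) ((i + 1) / 2 ^ c) := by
  ext z
  rw [mem_GK, mem_iUnion₂]
  constructor
  · rintro ⟨h1, h2, h3⟩
    refine ⟨⌊z * 2 ^ c⌋₊, ?_, (floor_eq h1).1 rfl⟩
    rw [Finset.mem_filter, Finset.mem_range]
    exact ⟨h2, h3⟩
  · rintro ⟨i, h1, h2⟩
    rw [Finset.mem_filter, Finset.mem_range] at h1
    have h3 : 0 ≤ z := by
      rw [mem_Ico] at h2
      refine le_trans ?_ h2.1
      positivity
    rw [(floor_eq h3).2 h2]
    exact ⟨h3, h1.1, h1.2⟩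

theorem measurableSet_GK (K : ℕ → ℕ → Prop) (c : ℕ) : MeasurableSet (GK K c) := by
  classical
  rw [GK_eq]
  exact Finset.measurableSet_biUnion _ (fun i _ => measurableSet_Ico)

theorem volume_GK (K : ℕ → ℕ → Prop) (c : ℕ) :
    volume (GK K c) = ENNReal.ofReal (cntK K c / 2 ^ c) := by
  classical
  rw [GK_eq, measure_biUnion_finset]
  · have h1 : ∀ i ∈ (Finset.range (2 ^ c)).filter (fun i => K c i),
        volume (Ico ((i : ℝ) / 2 ^ c) ((i + 1) / 2 ^ c)) = ENNReal.ofReal (1 / 2 ^ c) := by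
      intro i _
      rw [Real.volume_Ico]
      congr 1
      ring
    rw [Finset.sum_congr rfl h1, Finset.sum_const, ← ENNReal.ofReal_nsmul, cntK]
    congr 1
    rw [nsmul_eq_mul]
    ring
  · intro i _ j _ hij
    rw [Function.onFun, Set.disjoint_left]
    intro z hz hz'
    apply hij
    have h3 : 0 ≤ z := by
      rw [mem_Ico] at hz
      refine le_trans ?_ hz.1
      positivity
    rw [← (floor_eq h3).2 hz, ← (floor_eq h3).2 hz']
  · intro i _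
    exact measurableSet_Ico

theorem GK_subset (K : ℕ → ℕ → Prop) (c : ℕ) : GK K c ⊆ Ico 0 1 := by
  intro z hz
  rw [mem_GK] at hz
  rw [mem_Ico]
  refine ⟨hz.1, ?_⟩
  have h1 := Nat.lt_floor_add_one (z * 2 ^ c)
  have h2 : ((⌊z * 2 ^ c⌋₊ : ℕ) : ℝ) + 1 ≤ 2 ^ c := by
    have := hz.2.1
    exact_mod_cast this
  have h3 : z * 2 ^ c < 2 ^ c := lt_of_lt_of_le h1 h2
  have h4 : (0 : ℝ) < 2 ^ c := by positivity
  by_contra h5
  push Not at h5
  nlinarith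

theorem volume_GK_ne_top (K : ℕ → ℕ → Prop) (c : ℕ) : volume (GK K c) ≠ ⊤ := by
  rw [volume_GK]
  exact ENNReal.ofReal_ne_top

theorem floor_half {z : ℝ} (c : ℕ) : ⌊z * 2 ^ (c + 1)⌋₊ / 2 = ⌊z * 2 ^ c⌋₊ := by
  have h := Nat.floor_div_natCast (z * 2 ^ (c + 1)) 2
  rw [← h]
  congr 1
  push_cast
  rw [pow_succ]
  ring

/-- the monotonicity property -/
def MonoK (K : ℕ → ℕ → Prop) : Prop := ∀ c i, K (c + 1) i → K c (i / 2)

theorem GK_anti {K : ℕ → ℕ → Prop} (hK : MonoK K) : Antitone (GK K) := by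
  apply antitone_nat_of_succ_le
  intro c z hz
  rw [mem_GK] at hz ⊢
  obtain ⟨h1, h2, h3⟩ := hz
  refine ⟨h1, ?_, ?_⟩
  · rw [← floor_half c]
    rw [pow_succ] at h2
    exact Nat.div_lt_of_lt_mul (by rw [mul_comm 2]; exact h2)
  · rw [← floor_half c]
    exact hK c _ h3

/-- the limit set -/
def LK (K : ℕ → ℕ → Prop) : Set ℝ := ⋂ c, GK K c

theorem mem_LK {K : ℕ → ℕ → Prop} {z : ℝ} : z ∈ LK K ↔ ∀ c, z ∈ GK K c := by
  rw [LK, mem_iInter]

theorem measurableSet_LK (K : ℕ → ℕ → Prop) : MeasurableSet (LK K) :=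
  MeasurableSet.iInter (measurableSet_GK K)

theorem volume_LK {K : ℕ → ℕ → Prop} (hK : MonoK K) :
    volume (LK K) = ⨅ c, volume (GK K c) := by
  rw [LK]
  exact (GK_anti hK).measure_iInter (fun c => (measurableSet_GK K c).nullMeasurableSet)
    ⟨0, volume_GK_ne_top K 0⟩

theorem LK_subset (K : ℕ → ℕ → Prop) (c : ℕ) : LK K ⊆ GK K c := by
  intro z hz
  rw [mem_LK] at hz
  exact hz c

end Pool.Agent.H80.Luzin
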