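import Mathlib

/-!
# Definitions: `Π⁰₃` classes, weak 3-randomness, computable functions on `[0,1]`, Luzin's (N)
-/

namespace Pool.Agent.H80.Luzin

open MeasureTheory Set

/-- The open interval coded by `(p, q, k)`: its centre is `p / 2 ^ k` and its radius is
`q / 2 ^ k` (it is empty when `q = 0`). -/
def rball (v : ℕ × ℕ × ℕ) : Set ℝ :=
  {x | |x - (v.1 : ℝ) / 2 ^ v.2.2| < (v.2.1 : ℝ) / 2 ^ v.2.2}

/-- The class `⋂ a, ⋃ b, ⋂ c, [0,1] \ rball (g (a, b, c))`. When `g` is computable this is a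
`Π⁰₃` class of reals of `[0,1]` and all of them are of this form. -/
def Pi03Class (g : ℕ × ℕ × ℕ → ℕ × ℕ × ℕ) : Set ℝ :=
  {x | x ∈ Icc (0 : ℝ) 1 ∧ ∀ a, ∃ b, ∀ c, x ∉ rball (g (a, b, c))}

/-- The weakly 3-random reals of `[0,1]`: those in no null `Π⁰₃` class. -/
def W3R : Set ℝ :=
  {x | x ∈ Icc (0 : ℝ) 1 ∧ ∀ g : ℕ × ℕ × ℕ → ℕ × ℕ × ℕ, Computable g →
    volume (Pi03Class g) = 0 → x ∉ Pi03Class g}

/-- The restriction of `f` to `[0,1]` is a computable real function: the values at the dyadic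
rationals of `[0,1]` are uniformly computable and `f` has a computable modulus of uniform
continuity on `[0,1]`. -/
def IsComputableOnUnit (f : ℝ → ℝ) : Prop :=
  (∃ φ : ℕ × ℕ × ℕ → ℤ, Computable φ ∧ ∀ i j n : ℕ, i ≤ 2 ^ j →
    |f ((i : ℝ) / 2 ^ j) - (φ (i, j, n) : ℝ) / 2 ^ n| ≤ 1 / 2 ^ n) ∧
  (∃ m : ℕ → ℕ, Computable m ∧ ∀ n : ℕ, ∀ x ∈ Icc (0 : ℝ) 1, ∀ y ∈ Icc (0 : ℝ) 1,
    |x - y| ≤ 1 / 2 ^ m n → |f x - f y| ≤ 1 / 2 ^ n)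

/-- Luzin's property (N) on `[0,1]` (`volume` of an arbitrary set is its Lebesgue outer
measure). -/
def LuzinN (f : ℝ → ℝ) : Prop :=
  ∀ A ⊆ Icc (0 : ℝ) 1, volume A = 0 → volume (f '' A) = 0

theorem mem_rball {v : ℕ × ℕ × ℕ} {x : ℝ} :
    x ∈ rball v ↔ |x - (v.1 : ℝ) / 2 ^ v.2.2| < (v.2.1 : ℝ) / 2 ^ v.2.2 := by
  rw [rball, mem_ofPred_eq]

theorem mem_Pi03Class {g : ℕ × ℕ × ℕ → ℕ × ℕ × ℕ} {x : ℝ} :
    x ∈ Pi03Class g ↔ x ∈ Icc (0 : ℝ) 1 ∧ ∀ a, ∃ b, ∀ c, x ∉ rball (g (a, b, c)) := by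
  rw [Pi03Class, mem_ofPred_eq]

theorem mem_W3R {x : ℝ} : x ∈ W3R ↔ x ∈ Icc (0 : ℝ) 1 ∧
    ∀ g : ℕ × ℕ × ℕ → ℕ × ℕ × ℕ, Computable g →
    volume (Pi03Class g) = 0 → x ∉ Pi03Class g := by
  rw [W3R, mem_ofPred_eq]

end Pool.Agent.H80.Luzin
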