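import Mathlib
import Pool.Agent.H80.Luzin.Cells
import Pool.Agent.H80.Luzin.Defs

/-!
# Approximations of `Π⁰₃` classes by cells
-/

namespace Pool.Agent.H80.Luzin

open MeasureTheory Set
open Nat.Partrec (Code)

/-- decoding of a triple -/
def dec (v : ℕ) : ℕ × ℕ × ℕ := (v.unpair.1, v.unpair.2.unpair.1, v.unpair.2.unpair.2)

theorem dec_encode (w : ℕ × ℕ × ℕ) : dec (Encodable.encode w) = w := by
  obtain ⟨p, q, k⟩ := w
  simp [dec]

/-- the cell of level `c` and index `i` is inside of the interval -/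
def inB (c i v : ℕ) : Prop :=
  (dec v).1 * 2 ^ c < i * 2 ^ (dec v).2.2 + (dec v).2.1 * 2 ^ c ∧
    (i + 1) * 2 ^ (dec v).2.2 < ((dec v).1 + (dec v).2.1) * 2 ^ c

instance (c i v : ℕ) : Decidable (inB c i v) := by
  unfold inB
  infer_instance

theorem inB_sound {c i v : ℕ} (h : inB c i v) {z : ℝ} (h1 : (i : ℝ) / 2 ^ c ≤ z)
    (h2 : z < (i + 1) / 2 ^ c) : z ∈ rball (dec v) := by
  obtain ⟨h3, h4⟩ := h
  rw [mem_rball]
  generalize dec v = w at h3 h4 ⊢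
  obtain ⟨p, q, k⟩ := w
  simp only at h3 h4 ⊢
  have h5 : (p : ℝ) * 2 ^ c < i * 2 ^ k + q * 2 ^ c := by exact_mod_cast h3
  have h6 : ((i : ℝ) + 1) * 2 ^ k < (p + q) * 2 ^ c := by exact_mod_cast h4
  have hc : (0 : ℝ) < 2 ^ c := by positivity
  have hk : (0 : ℝ) < 2 ^ k := by positivity
  have h7 : (p : ℝ) / 2 ^ k - q / 2 ^ k < i / 2 ^ c := by
    rw [← sub_div, div_lt_div_iff₀ hk hc]
    linarith
  have h8 : ((i : ℝ) + 1) / 2 ^ c < p / 2 ^ k + q / 2 ^ k := by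
    rw [← add_div, div_lt_div_iff₀ hc hk]
    linarith
  rw [abs_lt]
  constructor <;> linarith

theorem inB_complete {v : ℕ} {z : ℝ} (hz : 0 ≤ z) (h : z ∈ rball (dec v)) :
    ∃ c₀, ∀ c ≥ c₀, inB c ⌊z * 2 ^ c⌋₊ v := by
  rw [mem_rball, abs_lt] at h
  obtain ⟨h1, h2⟩ := h
  obtain ⟨m, hm⟩ := exists_pow_lt_of_lt_one (x := min (z - (dec v).1 / 2 ^ (dec v).2.2 +
    (dec v).2.1 / 2 ^ (dec v).2.2) ((dec v).2.1 / 2 ^ (dec v).2.2 -
    (z - (dec v).1 / 2 ^ (dec v).2.2))) (lt_min (by linarith) (by linarith))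
    (by norm_num : (1 : ℝ) / 2 < 1)
  rw [lt_min_iff] at hm
  refine ⟨m, fun c hc => ?_⟩
  have hcm : ((1 : ℝ) / 2) ^ c ≤ (1 / 2) ^ m :=
    pow_le_pow_of_le_one (by norm_num) (by norm_num) hc
  have hfl := (floor_eq (c := c) (i := ⌊z * 2 ^ c⌋₊) hz).1 rfl
  rw [mem_Ico] at hfl
  rw [inB]
  generalize dec v = w at hm ⊢
  obtain ⟨p, q, k⟩ := w
  generalize ⌊z * 2 ^ c⌋₊ = i at hfl ⊢
  simp only at hm ⊢
  have hc0 : (0 : ℝ) < 2 ^ c := by positivity
  have hk : (0 : ℝ) < 2 ^ k := by positivity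
  rw [div_pow, one_pow] at hcm
  have h3 : ((i : ℝ) + 1) / 2 ^ c = i / 2 ^ c + 1 / 2 ^ c := by ring
  have h7 : (p : ℝ) / 2 ^ k - q / 2 ^ k < i / 2 ^ c := by
    linarith [hm.1, hm.2, hfl.1, hfl.2]
  have h8 : ((i : ℝ) + 1) / 2 ^ c < p / 2 ^ k + q / 2 ^ k := by
    linarith [hm.1, hm.2, hfl.1, hfl.2]
  rw [← sub_div, div_lt_div_iff₀ hk hc0] at h7
  rw [← add_div, div_lt_div_iff₀ hc0 hk] at h8
  constructor
  · have : (p : ℝ) * 2 ^ c < i * 2 ^ k + q * 2 ^ c := by linarith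
    exact_mod_cast this
  · exact_mod_cast h8

theorem inB_mono {c i v : ℕ} (h : inB c (i / 2) v) : inB (c + 1) i v := by
  rw [inB] at h ⊢
  generalize dec v = w at h ⊢
  obtain ⟨p, q, k⟩ := w
  simp only at h ⊢
  obtain ⟨h1, h2⟩ := h
  have h3 : 2 * (i / 2) ≤ i := Nat.mul_div_le i 2
  have h4 : i + 1 ≤ 2 * (i / 2 + 1) := by omega
  have h5 : 2 * (i / 2) * 2 ^ k ≤ i * 2 ^ k := Nat.mul_le_mul_right _ h3
  have h6 : (i + 1) * 2 ^ k ≤ 2 * (i / 2 + 1) * 2 ^ k := Nat.mul_le_mul_right _ h4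
  rw [pow_succ]
  constructor
  · nlinarith
  · nlinarith

/-- the cell is seen to be in one of the intervals -/
def bl (e a b c' c i : ℕ) : Bool :=
  ((Code.evaln c (Denumerable.ofNat Code e) (Nat.pair a (Nat.pair b c'))).map
    (fun v => decide (inB c i v))).getD false

/-- the cell is not yet seen to be in one of the intervals -/
def okr (e a b c i : ℕ) : Prop := ∀ c' < c + 1, bl e a b c' c i = false

theorem bl_false {e a b c' c i : ℕ} : bl e a b c' c i = false ↔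
    ∀ v ∈ Code.evaln c (Denumerable.ofNat Code e) (Nat.pair a (Nat.pair b c')), ¬ inB c i v := by
  rw [bl]
  cases Code.evaln c (Denumerable.ofNat Code e) (Nat.pair a (Nat.pair b c')) with
  | none => simp
  | some v => simp

theorem okr_mono (e a b : ℕ) : MonoK (okr e a b) := by
  intro c i h c' hc'
  have h1 := h c' (by omega)
  rw [bl_false] at h1 ⊢
  intro v hv hin
  exact h1 v (Code.evaln_mono (Nat.le_succ c) hv) (inB_mono hin)

/-- approximation of the class -/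
def okk (e a b c i : ℕ) : Prop := ∀ a' < a + 1, ∃ b' < b + 1, okr e a' b' c i

theorem okk_mono (e a b : ℕ) : MonoK (okk e a b) := by
  intro c i h a' ha'
  obtain ⟨b', hb', h1⟩ := h a' ha'
  exact ⟨b', hb', okr_mono e a' b' c i h1⟩

/-- the closed sets -/
def Cl (e a b : ℕ) : Set ℝ :=
  {z | ∀ c, ∀ v ∈ Code.eval (Denumerable.ofNat Code e) (Nat.pair a (Nat.pair b c)),
    z ∉ rball (dec v)}

theorem mem_Cl {e a b : ℕ} {z : ℝ} : z ∈ Cl e a b ↔
    ∀ c, ∀ v ∈ Code.eval (Denumerable.ofNat Code e) (Nat.pair a (Nat.pair b c)),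
    z ∉ rball (dec v) := by
  rw [Cl, mem_ofPred_eq]

theorem okr_of_mem {e a b : ℕ} {z : ℝ} (hz : 0 ≤ z) (h : z ∈ Cl e a b) (c : ℕ) :
    okr e a b c ⌊z * 2 ^ c⌋₊ := by
  intro c' _
  rw [bl_false]
  intro v hv hin
  rw [mem_Cl] at h
  have hfl := (floor_eq (c := c) (i := ⌊z * 2 ^ c⌋₊) hz).1 rfl
  rw [mem_Ico] at hfl
  exact h c' v (Code.evaln_sound hv) (inB_sound hin hfl.1 hfl.2)

theorem mem_of_okr {e a b : ℕ} {z : ℝ} (hz : 0 ≤ z) (h : ∀ N, ∃ c ≥ N, okr e a b c ⌊z * 2 ^ c⌋₊) :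
    z ∈ Cl e a b := by
  rw [mem_Cl]
  intro c' v hv hball
  obtain ⟨k, hk⟩ := Code.evaln_complete.1 hv
  obtain ⟨c₀, hc₀⟩ := inB_complete hz hball
  obtain ⟨c, hc, hok⟩ := h (max (max k c') c₀)
  have h1 : k ≤ c := le_trans (le_trans (le_max_left _ _) (le_max_left _ _)) hc
  have h2 : c' ≤ c := le_trans (le_trans (le_max_right _ _) (le_max_left _ _)) hc
  have h3 : c₀ ≤ c := le_trans (le_max_right _ _) hc
  have h4 := hok c' (by omega)
  rw [bl_false] at h4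
  exact h4 v (Code.evaln_mono h1 hk) (hc₀ c h3)

theorem mem_LK_okk {e a b : ℕ} {z : ℝ} : z ∈ LK (okk e a b) ↔
    z ∈ Ico (0 : ℝ) 1 ∧ ∀ a' < a + 1, ∃ b' < b + 1, z ∈ Cl e a' b' := by
  rw [mem_LK]
  constructor
  · intro h
    have h0 : z ∈ Ico (0 : ℝ) 1 := GK_subset _ _ (h 0)
    refine ⟨h0, fun a' ha' => ?_⟩
    rw [mem_Ico] at h0
    by_contra hcon
    push Not at hcon
    -- for every b' there is a bound
    have h1 : ∀ b' < b + 1, ∃ N, ∀ c ≥ N, ¬ okr e a' b' c ⌊z * 2 ^ c⌋₊ := by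
      intro b' hb'
      by_contra h2
      push Not at h2
      exact hcon b' hb' (mem_of_okr h0.1 h2)
    have h2 : ∀ B ≤ b + 1, ∃ N, ∀ b' < B, ∀ c ≥ N, ¬ okr e a' b' c ⌊z * 2 ^ c⌋₊ := by
      intro B
      induction B with
      | zero => intro _; exact ⟨0, fun b' hb' => absurd hb' (by omega)⟩
      | succ B ih =>
        intro hB
        obtain ⟨N, hN⟩ := ih (by omega)
        obtain ⟨N', hN'⟩ := h1 B (by omega)
        refine ⟨max N N', fun b' hb' c hc => ?_⟩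
        rcases Nat.lt_or_ge b' B with h3 | h3
        · exact hN b' h3 c (le_trans (le_max_left _ _) hc)
        · obtain rfl : b' = B := by omega
          exact hN' c (le_trans (le_max_right _ _) hc)
    obtain ⟨N, hN⟩ := h2 (b + 1) le_rfl
    have h3 := h N
    rw [mem_GK] at h3
    obtain ⟨b', hb', h4⟩ := h3.2.2 a' ha'
    exact hN b' hb' N le_rfl h4
  · rintro ⟨h0, h1⟩ c
    rw [mem_Ico] at h0
    rw [mem_GK]
    refine ⟨h0.1, ?_, ?_⟩
    · rw [Nat.floor_lt (by have := h0.1; positivity)]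
      push_cast
      have h2 : (0 : ℝ) < 2 ^ c := by positivity
      nlinarith [h0.2]
    · intro a' ha'
      obtain ⟨b', hb', h2⟩ := h1 a' ha'
      exact ⟨b', hb', okr_of_mem h0.1 h2 c⟩

/-- the stages of the intersection -/
def EE (e a : ℕ) : Set ℝ := ⋃ b, LK (okk e a b)

theorem mem_EE {e a : ℕ} {z : ℝ} : z ∈ EE e a ↔ ∃ b, z ∈ LK (okk e a b) := by
  rw [EE, mem_iUnion]

theorem measurableSet_EE (e a : ℕ) : MeasurableSet (EE e a) :=
  MeasurableSet.iUnion (fun _ => measurableSet_LK _)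

theorem LK_okk_mono {e a b b' : ℕ} (h : b ≤ b') : LK (okk e a b) ⊆ LK (okk e a b') := by
  intro z hz
  rw [mem_LK_okk] at hz ⊢
  refine ⟨hz.1, fun a' ha' => ?_⟩
  obtain ⟨b'', h1, h2⟩ := hz.2 a' ha'
  exact ⟨b'', by omega, h2⟩

theorem LK_okk_anti {e a a' b : ℕ} (h : a ≤ a') : LK (okk e a' b) ⊆ LK (okk e a b) := by
  intro z hz
  rw [mem_LK_okk] at hz ⊢
  exact ⟨hz.1, fun a'' ha'' => hz.2 a'' (by omega)⟩

theorem EE_anti (e : ℕ) : Antitone (EE e) := by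
  intro a a' h z hz
  rw [mem_EE] at hz ⊢
  obtain ⟨b, hb⟩ := hz
  exact ⟨b, LK_okk_anti h hb⟩

/-- the code `e` computes `g` -/
def CodeOf (e : ℕ) (g : ℕ × ℕ × ℕ → ℕ × ℕ × ℕ) : Prop :=
  ∀ a b c, Code.eval (Denumerable.ofNat Code e) (Nat.pair a (Nat.pair b c)) =
    Part.some (Encodable.encode (g (a, b, c)))

theorem exists_codeOf {g : ℕ × ℕ × ℕ → ℕ × ℕ × ℕ} (hg : Computable g) : ∃ e, CodeOf e g := by
  obtain ⟨cd, hcd⟩ := Code.exists_code.1 hg
  refine ⟨Encodable.encode cd, fun a b c => ?_⟩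
  rw [Denumerable.ofNat_encode, hcd]
  have h1 : Nat.pair a (Nat.pair b c) = Encodable.encode (a, b, c) := by simp
  rw [h1]
  simp

theorem mem_Cl_iff {e : ℕ} {g : ℕ × ℕ × ℕ → ℕ × ℕ × ℕ} (h : CodeOf e g) {a b : ℕ} {z : ℝ} :
    z ∈ Cl e a b ↔ ∀ c, z ∉ rball (g (a, b, c)) := by
  rw [mem_Cl]
  constructor
  · intro h1 c
    have h2 := h1 c (Encodable.encode (g (a, b, c))) (by rw [h a b c]; exact Part.mem_some _)
    rwa [dec_encode] at h2
  · intro h1 c v hv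
    rw [h a b c, Part.mem_some_iff] at hv
    rw [hv, dec_encode]
    exact h1 c

theorem mem_EE_of {e : ℕ} {g : ℕ × ℕ × ℕ → ℕ × ℕ × ℕ} (h : CodeOf e g) {z : ℝ}
    (hz : z ∈ Pi03Class g) (hz1 : z < 1) (a : ℕ) : z ∈ EE e a := by
  rw [mem_Pi03Class, mem_Icc] at hz
  rw [mem_EE]
  have h2 : ∀ A, ∃ b, ∀ a' < A, ∃ b' < b + 1, z ∈ Cl e a' b' := by
    intro A
    induction A with
    | zero => exact ⟨0, fun a' ha' => absurd ha' (by omega)⟩
    | succ A ih =>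
      obtain ⟨b, hb⟩ := ih
      obtain ⟨b₂, hb₂⟩ := hz.2 A
      refine ⟨max b b₂, fun a' ha' => ?_⟩
      rcases Nat.lt_or_ge a' A with h3 | h3
      · obtain ⟨b', h4, h5⟩ := hb a' h3
        exact ⟨b', by have := le_max_left b b₂; omega, h5⟩
      · obtain rfl : a' = A := by omega
        exact ⟨b₂, by have := le_max_right b b₂; omega, (mem_Cl_iff h).2 hb₂⟩
  obtain ⟨b, hb⟩ := h2 (a + 1)
  refine ⟨b, ?_⟩
  rw [mem_LK_okk, mem_Ico]
  exact ⟨⟨hz.1.1, hz1⟩, hb⟩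

theorem iInter_EE_subset {e : ℕ} {g : ℕ × ℕ × ℕ → ℕ × ℕ × ℕ} (h : CodeOf e g) :
    ⋂ a, EE e a ⊆ Pi03Class g := by
  intro z hz
  rw [mem_iInter] at hz
  rw [mem_Pi03Class]
  constructor
  · have h1 := hz 0
    rw [mem_EE] at h1
    obtain ⟨b, hb⟩ := h1
    rw [mem_LK_okk] at hb
    exact Ico_subset_Icc_self hb.1
  · intro a
    have h1 := hz a
    rw [mem_EE] at h1
    obtain ⟨b, hb⟩ := h1
    rw [mem_LK_okk] at hb
    obtain ⟨b', _, h2⟩ := hb.2 a (by omega)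
    exact ⟨b', (mem_Cl_iff h).1 h2⟩

theorem EE_subset (e a : ℕ) : EE e a ⊆ Ico 0 1 := by
  intro z hz
  rw [mem_EE] at hz
  obtain ⟨b, hb⟩ := hz
  rw [mem_LK_okk] at hb
  exact hb.1

theorem exists_small {e : ℕ} {g : ℕ × ℕ × ℕ → ℕ × ℕ × ℕ} (h : CodeOf e g)
    (hnull : volume (Pi03Class g) = 0) {ε : ENNReal} (hε : 0 < ε) :
    ∃ a, volume (EE e a) < ε := by
  have h1 : volume (⋂ a, EE e a) = 0 := measure_mono_null (iInter_EE_subset h) hnull
  rw [(EE_anti e).measure_iInter (fun a => (measurableSet_EE e a).nullMeasurableSet)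
    ⟨0, ne_of_lt (lt_of_le_of_lt (measure_mono (EE_subset e 0)) (by simp))⟩] at h1
  by_contra hcon
  push Not at hcon
  have h2 : ε ≤ ⨅ a, volume (EE e a) := le_iInf hcon
  rw [h1] at h2
  exact absurd hε (not_lt.2 h2)

end Pool.Agent.H80.Luzin
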