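import Mathlib

/-!
# The measure preserving machine

A machine reads the bits of `x : ℕ → Bool` one after the other and outputs one bit per stage.
Some of the bits read are kept in slots; the bit in slot `i` is output later if the requirement
`i` is active.
-/

namespace Pool.Agent.H80.Luzin

/-- the first `n` bits of a sequence -/
def pre (x : ℕ → Bool) : ℕ → List Bool
  | 0 => []
  | n + 1 => pre x n ++ [x n]

@[simp] theorem pre_zero (x : ℕ → Bool) : pre x 0 = [] := rfl

theorem pre_succ (x : ℕ → Bool) (n : ℕ) : pre x (n + 1) = pre x n ++ [x n] := rfl

@[simp] theorem length_pre (x : ℕ → Bool) (n : ℕ) : (pre x n).length = n := by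
  induction n with
  | zero => rfl
  | succ n ih => simp [pre_succ, ih]

theorem pre_isPre (x : ℕ → Bool) {m n : ℕ} (h : m ≤ n) : pre x m <+: pre x n := by
  induction n with
  | zero =>
    obtain rfl : m = 0 := by omega
    exact List.prefix_rfl
  | succ n ih =>
    rcases Nat.lt_or_ge n m with h1 | h1
    · obtain rfl : m = n + 1 := by omega
      exact List.prefix_rfl
    · exact (ih h1).trans (List.prefix_append _ _)

theorem take_pre (x : ℕ → Bool) {m n : ℕ} (h : m ≤ n) : (pre x n).take m = pre x m := by
  have h1 := pre_isPre x h
  rw [List.prefix_iff_eq_take] at h1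
  rw [length_pre] at h1
  exact h1.symm

theorem pre_congr {x x' : ℕ → Bool} {n : ℕ} (h : ∀ i < n, x i = x' i) : pre x n = pre x' n := by
  induction n with
  | zero => rfl
  | succ n ih =>
    rw [pre_succ, pre_succ, ih (fun i hi => h i (by omega)), h n (by omega)]

theorem getElem?_pre (x : ℕ → Bool) {i n : ℕ} (h : i < n) : (pre x n)[i]? = some (x i) := by
  induction n with
  | zero => omega
  | succ n ih =>
    rw [pre_succ]
    rcases Nat.lt_or_ge i n with h1 | h1
    · rw [List.getElem?_append_left (by simpa using h1)]
      exact ih h1
    · obtain rfl : i = n := by omega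
      rw [List.getElem?_append_right (by simp)]
      simp

theorem eq_of_pre_eq {x x' : ℕ → Bool} {n : ℕ} (h : pre x n = pre x' n) {i : ℕ} (hi : i < n) :
    x i = x' i := by
  have h1 := getElem?_pre x hi
  rw [h, getElem?_pre x' hi] at h1
  exact (Option.some.inj h1).symm

variable (R : List Bool → ℕ → Bool)

/-- the requirement of the string `s` is active at stage `t` -/
def act (s : List Bool) (t : ℕ) : Bool := decide (∃ a < t + 1, t ≤ 2 * a + 1 ∧ R s a = true)

/-- the merge index: the first index of a slot whose requirement is active, or the length -/
def fi (x : ℕ → Bool) (t : ℕ) : ℕ → List Bool → ℕ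
  | _, [] => 0
  | i, _ :: w => if act R (pre x i) t then 0 else fi x t (i + 1) w + 1

/-- the slots -/
def slots (x : ℕ → Bool) : ℕ → List Bool
  | 0 => []
  | t + 1 =>
    if fi R x t 0 (slots x t) < (slots x t).length then
      (slots x t).eraseIdx (fi R x t 0 (slots x t))
    else slots x t ++ [x (t + (slots x t).length + 1)]

/-- the output bits -/
def outb (x : ℕ → Bool) (t : ℕ) : Bool :=
  if fi R x t 0 (slots R x t) < (slots R x t).length then
    (slots R x t).getD (fi R x t 0 (slots R x t)) false
  else x (t + (slots R x t).length)

/-- the reversed list of the first output bits -/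
def outs (x : ℕ → Bool) : ℕ → List Bool
  | 0 => []
  | t + 1 => outb R x t :: outs x t

@[simp] theorem length_outs (x : ℕ → Bool) (t : ℕ) : (outs R x t).length = t := by
  induction t with
  | zero => rfl
  | succ t ih => simp [outs, ih]

theorem fi_le (x : ℕ → Bool) (t i : ℕ) (w : List Bool) : fi R x t i w ≤ w.length := by
  induction w generalizing i with
  | nil => simp [fi]
  | cons c w ih =>
    rw [fi]
    split_ifs
    · simp
    · have := ih (i + 1)
      simp only [List.length_cons]
      omega

theorem act_of_fi_lt {x : ℕ → Bool} {t i : ℕ} {w : List Bool} (h : fi R x t i w < w.length) :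
    act R (pre x (i + fi R x t i w)) t = true := by
  induction w generalizing i with
  | nil => simp at h
  | cons c w ih =>
    by_cases h1 : act R (pre x i) t = true
    · simp [fi, h1]
    · rw [fi, if_neg h1] at h ⊢
      simp only [List.length_cons, add_lt_add_iff_right] at h
      have := ih h
      rw [← this]
      congr 2
      omega

theorem not_act_of_lt_fi {x : ℕ → Bool} {t i : ℕ} {w : List Bool} {j : ℕ}
    (h : j < fi R x t i w) : act R (pre x (i + j)) t = false := by
  induction w generalizing i j with
  | nil => simp [fi] at h
  | cons c w ih =>
    by_cases h1 : act R (pre x i) t = true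
    · simp [fi, h1] at h
    · rw [fi, if_neg h1] at h
      cases j with
      | zero => simpa using h1
      | succ j =>
        have := ih (i := i + 1) (j := j) (by omega)
        rw [← this]
        congr 2
        omega

theorem fi_congr {x x' : ℕ → Bool} {t i : ℕ} {w : List Bool}
    (h : ∀ j < i + w.length, x j = x' j) : fi R x t i w = fi R x' t i w := by
  induction w generalizing i with
  | nil => rfl
  | cons c w ih =>
    rw [fi, fi, pre_congr (x := x) (x' := x') (n := i) (fun j hj => h j (by simp; omega)),
      ih (i := i + 1) (fun j hj => h j (by simp only [List.length_cons]; omega))]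

theorem length_slots_le (x : ℕ → Bool) (t : ℕ) : (slots R x t).length ≤ t := by
  induction t with
  | zero => simp [slots]
  | succ t ih =>
    rw [slots]
    split_ifs with h
    · rw [List.length_eraseIdx_of_lt h]
      omega
    · simp only [List.length_append, List.length_singleton]
      omega

/-- the number of bits read is monotone -/
theorem read_mono (x : ℕ → Bool) (t : ℕ) :
    t + (slots R x t).length ≤ t + 1 + (slots R x (t + 1)).length := by
  rw [slots]
  split_ifs with h
  · rw [List.length_eraseIdx_of_lt h]
    omega
  · simp only [List.length_append, List.length_singleton]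
    omega

theorem read_mono' (x : ℕ → Bool) {t t' : ℕ} (h : t ≤ t') :
    t + (slots R x t).length ≤ t' + (slots R x t').length := by
  induction t' with
  | zero =>
    obtain rfl : t = 0 := by omega
    exact le_rfl
  | succ t' ih =>
    rcases Nat.lt_or_ge t' t with h1 | h1
    · obtain rfl : t = t' + 1 := by omega
      exact le_rfl
    · exact (ih h1).trans (read_mono R x t')

/-- slots and outputs depend only on the bits read -/
theorem slots_congr {x x' : ℕ → Bool} {t : ℕ}
    (h : ∀ j < t + (slots R x t).length, x j = x' j) :
    slots R x t = slots R x' t ∧ outs R x t = outs R x' t := by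
  induction t with
  | zero => exact ⟨rfl, rfl⟩
  | succ t ih =>
    obtain ⟨h1, h2⟩ := ih (fun j hj => h j (lt_of_lt_of_le hj (read_mono R x t)))
    have h3 : fi R x t 0 (slots R x t) = fi R x' t 0 (slots R x' t) := by
      rw [← h1]
      refine fi_congr R (fun j hj => h j (lt_of_lt_of_le ?_ (read_mono R x t)))
      omega
    rw [slots] at h
    by_cases h4 : fi R x t 0 (slots R x t) < (slots R x t).length
    · have h5 : fi R x' t 0 (slots R x' t) < (slots R x' t).length := by rw [← h3, ← h1]; exact h4
      constructor
      · rw [slots, slots, if_pos h4, if_pos h5, h1, ← h3, ← h1]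
      · rw [outs, outs, outb, outb, if_pos h4, if_pos h5, h2, ← h3, ← h1]
    · have h5 : ¬ fi R x' t 0 (slots R x' t) < (slots R x' t).length := by
        rw [← h3, ← h1]; exact h4
      rw [if_neg h4] at h
      simp only [List.length_append, List.length_singleton] at h
      constructor
      · rw [slots, slots, if_neg h4, if_neg h5, h (t + (slots R x t).length + 1) (by omega), ← h1]
      · rw [outs, outs, outb, outb, if_neg h4, if_neg h5, h2,
          h (t + (slots R x t).length) (by omega), ← h1]

/-! ### Trees -/

/-- binary trees with strings at the leaves -/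
inductive BT
  | leaf (s : List Bool)
  | node (l r : BT)

/-- leftmost leaf -/
def BT.lft : BT → List Bool
  | .leaf s => s
  | .node l _ => l.lft

/-- list of the leaves -/
def BT.leaves : BT → List (List Bool)
  | .leaf s => [s]
  | .node l r => l.leaves ++ r.leaves

theorem BT.lft_mem (B : BT) : B.lft ∈ B.leaves := by
  induction B with
  | leaf s => simp [BT.lft, BT.leaves]
  | node l r ihl _ => simp [BT.lft, BT.leaves, ihl]

/-- one stage, for the output bit `b` -/
def BT.step (t : ℕ) (b : Bool) : ℕ → BT → BT
  | _, .leaf s => .node (.leaf (s ++ [b, false])) (.leaf (s ++ [b, true]))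
  | i, .node l r =>
    if act R (l.lft.take i) t then (if b then r else l)
    else .node (l.step t b (i + 1)) (r.step t b (i + 1))

/-- all leaves extend `p` -/
def BT.AllP (p : List Bool) (B : BT) : Prop := ∀ s ∈ B.leaves, p <+: s

/-- the invariant of the tree at stage `t` for a subtree at depth `i` -/
def BT.Inv (t : ℕ) : ℕ → BT → Prop
  | i, .leaf s => s.length = t + i
  | i, .node l r => l.Inv t (i + 1) ∧ r.Inv t (i + 1) ∧ ∃ p : List Bool, p.length = i ∧
      (BT.node l r).AllP p

theorem BT.Inv.shift {t : ℕ} {B : BT} : ∀ {i : ℕ}, B.Inv t (i + 1) → B.Inv (t + 1) i := by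
  induction B with
  | leaf s => intro i h; simp only [BT.Inv] at h ⊢; omega
  | node l r ihl ihr =>
    intro i h
    obtain ⟨h1, h2, p, h3, h4⟩ := h
    refine ⟨ihl h1, ihr h2, p.take i, by simp [h3], ?_⟩
    intro s hs
    exact (List.take_prefix i p).trans (h4 s hs)

theorem BT.leaves_step {t : ℕ} {b : Bool} {B : BT} : ∀ {i : ℕ} {s : List Bool},
    s ∈ (B.step R t b i).leaves → ∃ s' ∈ B.leaves, s' <+: s := by
  induction B with
  | leaf s' =>
    intro i s h
    simp only [BT.step, BT.leaves, List.cons_append, List.nil_append, List.mem_cons,
      List.not_mem_nil, or_false] at h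
    refine ⟨s', by simp [BT.leaves], ?_⟩
    rcases h with rfl | rfl
    · exact List.prefix_append _ _
    · exact List.prefix_append _ _
  | node l r ihl ihr =>
    intro i s h
    rw [BT.step] at h
    by_cases h1 : act R (l.lft.take i) t = true
    · rw [if_pos h1] at h
      cases b with
      | true => exact ⟨s, by simp only [BT.leaves, List.mem_append]; right; simpa using h,
          List.prefix_rfl⟩
      | false => exact ⟨s, by simp only [BT.leaves, List.mem_append]; left; simpa using h,
          List.prefix_rfl⟩
    · rw [if_neg h1] at h
      simp only [BT.leaves, List.mem_append] at h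
      rcases h with h | h
      · obtain ⟨s', h2, h3⟩ := ihl h
        exact ⟨s', by simp [BT.leaves, h2], h3⟩
      · obtain ⟨s', h2, h3⟩ := ihr h
        exact ⟨s', by simp [BT.leaves, h2], h3⟩

theorem BT.Inv.step {t : ℕ} {b : Bool} {B : BT} : ∀ {i : ℕ}, B.Inv t i →
    (B.step R t b i).Inv (t + 1) i := by
  induction B with
  | leaf s =>
    intro i h
    simp only [BT.Inv] at h
    refine ⟨by simp only [BT.Inv, List.length_append, List.length_cons, List.length_nil]; omega,
      by simp only [BT.Inv, List.length_append, List.length_cons, List.length_nil]; omega,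
      s.take i, ?_, ?_⟩
    · simp [h]
    · intro s' hs'
      simp only [BT.leaves, List.cons_append, List.nil_append, List.mem_cons,
        List.not_mem_nil, or_false] at hs'
      rcases hs' with rfl | rfl
      · exact (List.take_prefix i s).trans (List.prefix_append _ _)
      · exact (List.take_prefix i s).trans (List.prefix_append _ _)
  | node l r ihl ihr =>
    intro i h
    obtain ⟨h1, h2, p, h3, h4⟩ := h
    rw [BT.step]
    by_cases h5 : act R (l.lft.take i) t = true
    · rw [if_pos h5]
      cases b with
      | true => exact h2.shift
      | false => exact h1.shift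
    · rw [if_neg h5]
      refine ⟨ihl h1, ihr h2, p, h3, ?_⟩
      intro s hs
      have hs' : s ∈ ((BT.node l r).step R t b i).leaves := by
        rw [BT.step, if_neg h5]
        exact hs
      obtain ⟨s', h6, h7⟩ := BT.leaves_step R hs'
      exact (h4 s' h6).trans h7

/-- the subtree reached along a path -/
def BT.at : BT → List Bool → Option BT
  | B, [] => some B
  | .leaf _, _ :: _ => none
  | .node l r, b :: w => if b then r.at w else l.at w

theorem BT.at_nil (B : BT) : B.at [] = some B := by cases B <;> rfl

theorem BT.at_append {B : BT} {v w : List Bool} {B' : BT} (h : B.at (v ++ w) = some B') :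
    ∃ C, B.at v = some C ∧ C.at w = some B' := by
  induction v generalizing B with
  | nil => exact ⟨B, BT.at_nil B, by simpa using h⟩
  | cons b v ih =>
    cases B with
    | leaf s => simp [BT.at] at h
    | node l r =>
      simp only [List.cons_append, BT.at] at h ⊢
      cases b with
      | true => simpa using ih (B := r) (by simpa using h)
      | false => simpa using ih (B := l) (by simpa using h)

theorem BT.at_mem {B : BT} {w : List Bool} {B' : BT} (h : B.at w = some B') :
    ∀ s ∈ B'.leaves, s ∈ B.leaves := by
  induction w generalizing B with
  | nil =>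
    rw [BT.at_nil] at h
    obtain rfl := Option.some.inj h
    exact fun s hs => hs
  | cons b w ih =>
    cases B with
    | leaf s => simp [BT.at] at h
    | node l r =>
      intro s hs
      simp only [BT.leaves, List.mem_append]
      cases b with
      | true => right; exact ih (B := r) (by simpa [BT.at] using h) s hs
      | false => left; exact ih (B := l) (by simpa [BT.at] using h) s hs

theorem BT.Inv.at {t : ℕ} {B : BT} {w : List Bool} {B' : BT} {i : ℕ} (hB : B.Inv t i)
    (h : B.at w = some B') : B'.Inv t (i + w.length) := by
  induction w generalizing B i with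
  | nil =>
    rw [BT.at_nil] at h
    obtain rfl := Option.some.inj h
    simpa using hB
  | cons b w ih =>
    cases B with
    | leaf s => simp [BT.at] at h
    | node l r =>
      obtain ⟨h1, h2, -⟩ := hB
      have h3 : i + (b :: w).length = i + 1 + w.length := by simp only [List.length_cons]; omega
      rw [h3]
      cases b with
      | true => exact ih (B := r) h2 (by simpa [BT.at] using h)
      | false => exact ih (B := l) h1 (by simpa [BT.at] using h)

/-- the main step lemma -/
theorem BT.at_step {x : ℕ → Bool} {t : ℕ} {w : List Bool} : ∀ {B : BT} {i : ℕ},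
    B.Inv t i → B.at w = some (.leaf (pre x (t + i + w.length))) →
    (fi R x t i w < w.length → (B.step R t (w.getD (fi R x t i w) false) i).at
      (w.eraseIdx (fi R x t i w)) = some (.leaf (pre x (t + i + w.length)))) ∧
    (¬ fi R x t i w < w.length → (B.step R t (x (t + i + w.length)) i).at
      (w ++ [x (t + i + w.length + 1)]) = some (.leaf (pre x (t + i + w.length + 2)))) := by
  induction w with
  | nil =>
    intro B i hB h
    rw [BT.at_nil] at h
    obtain rfl := Option.some.inj h
    refine ⟨fun h => by simp [fi] at h, fun _ => ?_⟩
    simp only [BT.step, List.nil_append, BT.at, List.length_nil, Nat.add_zero]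
    rw [pre_succ x (t + i + 1), pre_succ x (t + i)]
    cases hb : x (t + i + 1) <;> simp
  | cons c w ih =>
    intro B i hB h
    cases B with
    | leaf s => simp [BT.at] at h
    | node l r =>
      obtain ⟨h1, h2, p, h3, h4⟩ := hB
      have hlen : t + i + (c :: w).length = t + (i + 1) + w.length := by
        simp only [List.length_cons]; omega
      rw [hlen] at h ⊢
      have hmem : pre x (t + (i + 1) + w.length) ∈ (BT.node l r).leaves :=
        BT.at_mem h _ (by simp [BT.leaves])
      have hp : p = pre x i := by
        have h5 := h4 _ hmem
        rw [List.prefix_iff_eq_take, h3, take_pre x (by omega)] at h5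
        exact h5
      have hlft : l.lft.take i = pre x i := by
        have h5 := h4 _ (BT.lft_mem (BT.node l r))
        rw [List.prefix_iff_eq_take, h3] at h5
        rw [← hp]
        exact h5.symm
      by_cases h5 : act R (pre x i) t = true
      · have hfi : fi R x t i (c :: w) = 0 := by simp [fi, h5]
        rw [hfi]
        refine ⟨fun _ => ?_, fun h6 => by simp at h6⟩
        rw [BT.step, hlft, if_pos h5]
        cases c with
        | true => simpa [BT.at] using h
        | false => simpa [BT.at] using h
      · have hfi : fi R x t i (c :: w) = fi R x t (i + 1) w + 1 := by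
          rw [fi, if_neg h5]
        rw [hfi]
        have hchild : ∀ b', (BT.node l r).step R t b' i =
            .node (l.step R t b' (i + 1)) (r.step R t b' (i + 1)) := by
          intro b'
          rw [BT.step, hlft, if_neg h5]
        cases c with
        | true =>
          obtain ⟨h6, h7⟩ := ih (B := r) h2 (by simpa [BT.at] using h)
          constructor
          · intro h8
            rw [hchild]
            simp only [List.length_cons, add_lt_add_iff_right] at h8
            simpa [BT.at] using h6 h8
          · intro h8
            rw [hchild]
            simp only [List.length_cons, add_lt_add_iff_right] at h8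
            simpa [BT.at] using h7 h8
        | false =>
          obtain ⟨h6, h7⟩ := ih (B := l) h1 (by simpa [BT.at] using h)
          constructor
          · intro h8
            rw [hchild]
            simp only [List.length_cons, add_lt_add_iff_right] at h8
            simpa [BT.at] using h6 h8
          · intro h8
            rw [hchild]
            simp only [List.length_cons, add_lt_add_iff_right] at h8
            simpa [BT.at] using h7 h8

/-- the tree of a (reversed) output string -/
def tree : List Bool → BT
  | [] => .leaf []
  | b :: s => (tree s).step R s.length b 0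

theorem tree_inv (s : List Bool) : (tree R s).Inv s.length 0 := by
  induction s with
  | nil => simp [tree, BT.Inv]
  | cons b s ih =>
    rw [tree, List.length_cons]
    exact ih.step R

theorem tree_at (x : ℕ → Bool) (t : ℕ) :
    (tree R (outs R x t)).at (slots R x t) = some (.leaf (pre x (t + (slots R x t).length))) := by
  induction t with
  | zero => simp [outs, slots, tree, BT.at]
  | succ t ih =>
    have hinv := tree_inv R (outs R x t)
    rw [length_outs] at hinv
    obtain ⟨h1, h2⟩ := BT.at_step R (x := x) (w := slots R x t) hinv (by simpa using ih)
    rw [outs, tree, length_outs]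
    by_cases h3 : fi R x t 0 (slots R x t) < (slots R x t).length
    · have h4 := h1 h3
      rw [outb, if_pos h3, slots, if_pos h3, h4, List.length_eraseIdx_of_lt h3]
      congr 3
      omega
    · have h4 := h2 h3
      rw [Nat.add_zero] at h4
      rw [outb, if_neg h3, slots, if_neg h3, h4]
      congr 3
      simp only [List.length_append, List.length_singleton]
      omega

/-- The leaves covering the points with outputs `s` and first slots `v`. -/
def cov (s v : List Bool) : List (List Bool) :=
  match (tree R s).at v with
  | some B => B.leaves
  | none => []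

theorem mem_cov {x : ℕ → Bool} {t : ℕ} {v : List Bool} (hv : v <+: slots R x t) :
    pre x (t + (slots R x t).length) ∈ cov R (outs R x t) v := by
  obtain ⟨w, hw⟩ := hv
  have h := tree_at R x t
  rw [← hw] at h
  obtain ⟨C, h1, h2⟩ := BT.at_append h
  rw [cov, h1]
  rw [hw] at h2
  exact BT.at_mem h2 _ (by simp [BT.leaves])

theorem weight_leaves {t : ℕ} {B : BT} : ∀ {i : ℕ}, B.Inv t i →
    (B.leaves.map (fun σ => ((1 : ℝ) / 2) ^ σ.length)).sum = (1 / 2) ^ (t + i) := by
  induction B with
  | leaf s =>
    intro i h
    simp only [BT.Inv] at h
    simp [BT.leaves, h]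
  | node l r ihl ihr =>
    intro i h
    obtain ⟨h1, h2, -⟩ := h
    rw [BT.leaves, List.map_append, List.sum_append, ihl h1, ihr h2]
    rw [← add_assoc, pow_succ]
    ring

theorem weight_cov (s v : List Bool) :
    ((cov R s v).map (fun σ => ((1 : ℝ) / 2) ^ σ.length)).sum ≤ (1 / 2) ^ (s.length + v.length) := by
  rw [cov]
  cases h : (tree R s).at v with
  | none => simp
  | some B =>
    have h1 := (tree_inv R s).at h
    rw [Nat.zero_add] at h1
    exact (weight_leaves h1).le

/-! ### Dynamics -/

theorem length_slots_merge {x : ℕ → Bool} {t : ℕ}
    (h : fi R x t 0 (slots R x t) < (slots R x t).length) :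
    (slots R x (t + 1)).length + 1 = (slots R x t).length := by
  rw [slots, if_pos h, List.length_eraseIdx_of_lt h]
  omega

theorem act_of {s : List Bool} {a t : ℕ} (h : R s a = true) (h1 : a ≤ t) (h2 : t ≤ 2 * a + 1) :
    act R s t = true := by
  simp only [act, decide_eq_true_eq]
  exact ⟨a, by omega, h2, h⟩

/-- If a requirement acts infinitely often then the number of slots is bounded infinitely often. -/
theorem slots_bounded {x : ℕ → Bool} {i : ℕ} (h : ∀ N, ∃ a ≥ N, R (pre x i) a = true) (N : ℕ) :
    ∃ t ≥ N, (slots R x t).length ≤ i := by
  obtain ⟨a, ha, hR⟩ := h N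
  by_contra hcon
  push Not at hcon
  have h1 : ∀ k ≤ a + 1, (slots R x (a + k)).length + k = (slots R x a).length := by
    intro k
    induction k with
    | zero => intro _; rfl
    | succ k ih =>
      intro hk
      have h2 := ih (by omega)
      have h3 : fi R x (a + k) 0 (slots R x (a + k)) < (slots R x (a + k)).length := by
        by_contra h4
        have h5 := hcon (a + k) (by omega)
        have h6 := not_act_of_lt_fi R (x := x) (t := a + k) (i := 0) (w := slots R x (a + k))
          (j := i) (by omega)
        rw [Nat.zero_add, act_of R hR (by omega) (by omega)] at h6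
        exact absurd h6 (by simp)
      have h4 : (slots R x (a + (k + 1))).length + 1 = (slots R x (a + k)).length :=
        length_slots_merge R h3
      omega
  have h2 := h1 (a + 1) le_rfl
  have h3 := length_slots_le R x a
  omega

theorem not_act_eventually {s : List Bool} (h : ∃ N, ∀ a ≥ N, R s a = false) :
    ∃ N, ∀ t ≥ N, act R s t = false := by
  obtain ⟨N, hN⟩ := h
  refine ⟨2 * N + 2, fun t ht => ?_⟩
  simp only [act, decide_eq_false_iff_not, not_exists, not_and]
  intro a _ ha hR
  rw [hN a (by omega)] at hR
  exact absurd hR (by simp)

/-- If all requirements act finitely often then the slots stabilise. -/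
theorem slots_stable {x : ℕ → Bool} (h : ∀ i, ∃ N, ∀ a ≥ N, R (pre x i) a = false) (k : ℕ) :
    ∃ t₀, ∃ v : List Bool, v.length = k ∧ ∀ t ≥ t₀, v <+: slots R x t := by
  induction k with
  | zero => exact ⟨0, [], rfl, fun t _ => List.nil_prefix⟩
  | succ k ih =>
    obtain ⟨t₀, v, hv, hst⟩ := ih
    have hact : ∃ N, ∀ t ≥ N, ∀ i < k + 1, act R (pre x i) t = false := by
      clear hst hv
      induction (k + 1) with
      | zero => exact ⟨0, fun t _ i hi => absurd hi (by omega)⟩
      | succ m ihm =>
        obtain ⟨N, hN⟩ := ihm
        obtain ⟨N', hN'⟩ := not_act_eventually R (h m)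
        refine ⟨max N N', fun t ht i hi => ?_⟩
        rcases Nat.lt_or_ge i m with h1 | h1
        · exact hN t (le_trans (le_max_left _ _) ht) i h1
        · obtain rfl : i = m := by omega
          exact hN' t (le_trans (le_max_right _ _) ht)
    obtain ⟨N, hN⟩ := hact
    have hfi : ∀ t ≥ N, fi R x t 0 (slots R x t) < (slots R x t).length →
        k + 1 ≤ fi R x t 0 (slots R x t) := by
      intro t ht h1
      by_contra h2
      have h3 := act_of_fi_lt R h1
      rw [Nat.zero_add, hN t ht _ (by omega)] at h3
      exact absurd h3 (by simp)
    -- a stage with enough slots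
    obtain ⟨t₁, ht₁, hlen⟩ : ∃ t₁ ≥ max t₀ N, k + 1 ≤ (slots R x t₁).length := by
      by_cases h1 : k + 1 ≤ (slots R x (max t₀ N)).length
      · exact ⟨_, le_rfl, h1⟩
      · refine ⟨max t₀ N + 1, by omega, ?_⟩
        have h2 := (hst (max t₀ N) (le_max_left _ _)).length_le
        have h3 : ¬ fi R x (max t₀ N) 0 (slots R x (max t₀ N)) <
            (slots R x (max t₀ N)).length := by
          intro h4
          have h5 := hfi _ (le_max_right _ _) h4
          omega
        rw [slots, if_neg h3]
        simp only [List.length_append, List.length_singleton]
        omega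
    refine ⟨t₁, (slots R x t₁).take (k + 1), by simp [hlen], ?_⟩
    have hmain : ∀ t ≥ t₁, k + 1 ≤ (slots R x t).length ∧
        (slots R x t).take (k + 1) = (slots R x t₁).take (k + 1) := by
      intro t ht
      induction t with
      | zero =>
        obtain rfl : t₁ = 0 := by omega
        exact ⟨hlen, rfl⟩
      | succ t iht =>
        rcases Nat.lt_or_ge t t₁ with h1 | h1
        · obtain rfl : t₁ = t + 1 := by omega
          exact ⟨hlen, rfl⟩
        · obtain ⟨h2, h3⟩ := iht h1
          have h4 : N ≤ t := le_trans (le_max_right _ _) (le_trans ht₁ h1)
          rw [slots]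
          by_cases h5 : fi R x t 0 (slots R x t) < (slots R x t).length
          · have h6 := hfi t h4 h5
            rw [if_pos h5]
            constructor
            · rw [List.length_eraseIdx_of_lt h5]
              omega
            · rw [← h3, List.eraseIdx_eq_take_drop_succ, List.take_append_of_le_length
                (by rw [List.length_take]; omega), List.take_take, min_eq_left h6]
          · rw [if_neg h5]
            constructor
            · simp only [List.length_append, List.length_singleton]
              omega
            · rw [← h3, List.take_append_of_le_length h2]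
    intro t ht
    rw [← (hmain t ht).2]
    exact List.take_prefix _ _

end Pool.Agent.H80.Luzin
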