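import Mathlib
import Pool.Agent.H80.Luzin.Tree

/-!
# A fat Cantor set

The intervals `J σ`, their intersection `Fat`, and the coding of its points.
-/

namespace Pool.Agent.H80.Luzin

open MeasureTheory Set

/-- left end point (numerator) and `2 ^ length` -/
def st (σ : List Bool) : ℕ × ℕ :=
  σ.foldl (fun q b => (4 * q.1 + (if b then 2 * q.2 + 3 else 0), 2 * q.2)) (0, 1)

theorem st_append (σ : List Bool) (b : Bool) :
    st (σ ++ [b]) = (4 * (st σ).1 + (if b then 2 * (st σ).2 + 3 else 0), 2 * (st σ).2) := by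
  simp [st, List.foldl_append]

theorem st_snd (σ : List Bool) : (st σ).2 = 2 ^ σ.length := by
  induction σ using List.reverseRecOn with
  | nil => rfl
  | append_singleton σ b ih =>
    rw [st_append, List.length_append, List.length_singleton, pow_succ, ← ih]
    simp only
    ring

/-- numerator of the left end point -/
def nu (σ : List Bool) : ℕ := (st σ).1

theorem nu_nil : nu [] = 0 := rfl

theorem nu_append (σ : List Bool) (b : Bool) :
    nu (σ ++ [b]) = 4 * nu σ + (if b then 2 * 2 ^ σ.length + 3 else 0) := by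
  rw [nu, st_append, st_snd]
  rfl

/-- separation -/
theorem nu_sep {σ τ : List Bool} (hl : σ.length = τ.length) (hne : σ ≠ τ) :
    nu σ + 2 ^ σ.length + 3 ≤ nu τ ∨ nu τ + 2 ^ τ.length + 3 ≤ nu σ := by
  induction σ using List.reverseRecOn generalizing τ with
  | nil =>
    exfalso
    apply hne
    symm
    rw [← List.length_eq_zero_iff, ← hl]
    rfl
  | append_singleton σ b ih =>
    induction τ using List.reverseRecOn with
    | nil => simp at hl
    | append_singleton τ c _ =>
      simp only [List.length_append, List.length_singleton, add_left_inj] at hl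
      rw [nu_append, nu_append, List.length_append, List.length_append, List.length_singleton,
        List.length_singleton, pow_succ, pow_succ, ← hl]
      by_cases h : σ = τ
      · subst h
        cases b <;> cases c
        · exact absurd rfl hne
        · left; simp only [if_true, Bool.false_eq_true, if_false]; omega
        · right; simp only [if_true, Bool.false_eq_true, if_false]; omega
        · exact absurd rfl hne
      · rcases ih hl h with h1 | h1
        · left
          cases b <;> cases c <;> simp only [if_true, Bool.false_eq_true, if_false] <;> omega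
        · right
          rw [← hl] at h1
          cases b <;> cases c <;> simp only [if_true, Bool.false_eq_true, if_false] <;> omega

/-- left end point -/
noncomputable def lo (σ : List Bool) : ℝ := nu σ / 2 ^ (2 * σ.length + 1)

/-- right end point -/
noncomputable def hi (σ : List Bool) : ℝ := (nu σ + 2 ^ σ.length + 1) / 2 ^ (2 * σ.length + 1)

/-- the interval of a string -/
def J (σ : List Bool) : Set ℝ := Icc (lo σ) (hi σ)

theorem mem_J {σ : List Bool} {z : ℝ} : z ∈ J σ ↔ lo σ ≤ z ∧ z ≤ hi σ := by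
  rw [J, mem_Icc]

theorem lo_append (σ : List Bool) (b : Bool) :
    lo (σ ++ [b]) = lo σ + if b then (2 * 2 ^ σ.length + 3) / 2 ^ (2 * σ.length + 3) else 0 := by
  rw [lo, lo, nu_append, List.length_append, List.length_singleton]
  have h1 : (2 : ℝ) ^ (2 * (σ.length + 1) + 1) = 4 * 2 ^ (2 * σ.length + 1) := by ring
  have h2 : (2 : ℝ) ^ (2 * σ.length + 3) = 4 * 2 ^ (2 * σ.length + 1) := by ring
  rw [h1, h2]
  cases b
  · simp
    field_simp
  · simp
    field_simp

theorem hi_append (σ : List Bool) (b : Bool) :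
    hi (σ ++ [b]) = if b then hi σ else lo σ + (2 * 2 ^ σ.length + 1) / 2 ^ (2 * σ.length + 3) := by
  rw [hi, nu_append, List.length_append, List.length_singleton]
  have h1 : (2 : ℝ) ^ (2 * (σ.length + 1) + 1) = 4 * 2 ^ (2 * σ.length + 1) := by ring
  have h2 : (2 : ℝ) ^ (2 * σ.length + 3) = 4 * 2 ^ (2 * σ.length + 1) := by ring
  rw [h1, h2, pow_succ]
  cases b
  · simp only [Bool.false_eq_true, if_false, lo]
    push_cast
    field_simp
    ring
  · simp only [if_true, hi]
    push_cast
    field_simp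
    ring

theorem hi_sub_lo (σ : List Bool) : hi σ - lo σ = (2 ^ σ.length + 1) / 2 ^ (2 * σ.length + 1) := by
  rw [hi, lo]
  ring

theorem hi_eq (σ : List Bool) : hi σ = lo σ + (2 ^ σ.length + 1) / 2 ^ (2 * σ.length + 1) := by
  rw [← hi_sub_lo]
  ring

theorem lo_le_hi (σ : List Bool) : lo σ ≤ hi σ := by
  rw [hi_eq]
  have : (0 : ℝ) ≤ (2 ^ σ.length + 1) / 2 ^ (2 * σ.length + 1) := by positivity
  linarith

theorem J_append_subset (σ : List Bool) (b : Bool) : J (σ ++ [b]) ⊆ J σ := by
  rw [J, J]
  apply Icc_subset_Icc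
  · rw [lo_append]
    cases b
    · simp
    · simp only [if_true, le_add_iff_nonneg_right]
      positivity
  · rw [hi_append]
    cases b
    · simp only [Bool.false_eq_true, if_false]
      rw [hi_eq]
      have h2 : (2 : ℝ) ^ (2 * σ.length + 3) = 4 * 2 ^ (2 * σ.length + 1) := by ring
      rw [h2]
      have h3 : (0 : ℝ) < 2 ^ (2 * σ.length + 1) := by positivity
      have h4 : (0 : ℝ) < 2 ^ σ.length := by positivity
      gcongr lo σ + ?_
      rw [div_le_div_iff₀ (by positivity) (by positivity)]
      nlinarith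
    · simp

theorem J_mono {σ τ : List Bool} (h : τ <+: σ) : J σ ⊆ J τ := by
  obtain ⟨ρ, rfl⟩ := h
  induction ρ using List.reverseRecOn with
  | nil => simp
  | append_singleton ρ b ih =>
    rw [← List.append_assoc]
    exact (J_append_subset _ _).trans ih

/-- lengths -/
theorem len_le (σ : List Bool) : hi σ - lo σ ≤ (1 / 2) ^ σ.length := by
  rw [hi_sub_lo, div_pow, one_pow, div_le_div_iff₀ (by positivity) (by positivity)]
  have h : (1 : ℝ) ≤ 2 ^ σ.length := one_le_pow₀ (by norm_num)
  have h1 : (2 : ℝ) ^ (2 * σ.length + 1) = 2 * (2 ^ σ.length * 2 ^ σ.length) := by ring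
  rw [h1]
  nlinarith

theorem le_len (σ : List Bool) : (1 / 2) ^ (σ.length + 1) ≤ hi σ - lo σ := by
  rw [hi_sub_lo, div_pow, one_pow, div_le_div_iff₀ (by positivity) (by positivity)]
  have h : (1 : ℝ) ≤ 2 ^ σ.length := one_le_pow₀ (by norm_num)
  have h1 : (2 : ℝ) ^ (2 * σ.length + 1) = 2 * (2 ^ σ.length * 2 ^ σ.length) := by ring
  rw [h1, pow_succ]
  nlinarith

/-- separation of intervals -/
theorem dist_sep {σ τ : List Bool} (hl : σ.length = τ.length) (hne : σ ≠ τ) :
    hi σ + (1 / 4) ^ σ.length ≤ lo τ ∨ hi τ + (1 / 4) ^ σ.length ≤ lo σ := by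
  have key : ∀ {σ τ : List Bool}, σ.length = τ.length → nu σ + 2 ^ σ.length + 3 ≤ nu τ →
      hi σ + (1 / 4) ^ σ.length ≤ lo τ := by
    intro σ τ hl h
    rw [hi, lo, ← hl]
    have h1 : ((1 : ℝ) / 4) ^ σ.length = 2 / 2 ^ (2 * σ.length + 1) := by
      rw [div_pow, one_pow, pow_succ, pow_mul]
      norm_num
      field_simp
    rw [h1, ← add_div]
    gcongr
    have : ((nu σ + 2 ^ σ.length + 3 : ℕ) : ℝ) ≤ nu τ := by exact_mod_cast h
    push_cast at this
    linarith
  rcases nu_sep hl hne with h | h
  · left; exact key hl h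
  · right
    rw [hl]
    exact key hl.symm h

open Classical in
/-- next bit -/
noncomputable def nb (z : ℝ) (σ : List Bool) : Bool :=
  if lo (σ ++ [true]) ≤ z then true else false

theorem nb_of_le {z : ℝ} {σ : List Bool} (h : lo (σ ++ [true]) ≤ z) : nb z σ = true := by
  rw [nb, if_pos h]

theorem nb_of_not_le {z : ℝ} {σ : List Bool} (h : ¬ lo (σ ++ [true]) ≤ z) : nb z σ = false := by
  rw [nb, if_neg h]

/-- the code of a point -/
noncomputable def cdl (z : ℝ) : ℕ → List Bool
  | 0 => []
  | n + 1 => cdl z n ++ [nb z (cdl z n)]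

/-- the code of a point as a sequence -/
noncomputable def cd (z : ℝ) (n : ℕ) : Bool := nb z (cdl z n)

theorem pre_cd (z : ℝ) (n : ℕ) : pre (cd z) n = cdl z n := by
  induction n with
  | zero => rfl
  | succ n ih => rw [pre_succ, ih, cdl, cd]

theorem cdl_of_mem {z : ℝ} {σ : List Bool} (h : z ∈ J σ) : cdl z σ.length = σ := by
  induction σ using List.reverseRecOn with
  | nil => rfl
  | append_singleton σ b ih =>
    have h1 := ih (J_append_subset _ _ h)
    rw [List.length_append, List.length_singleton, cdl, h1]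
    congr 2
    cases b with
    | true => exact nb_of_le (mem_J.1 h).1
    | false =>
      apply nb_of_not_le
      intro h2
      have h3 := (mem_J.1 h).2
      have h4 := dist_sep (σ := σ ++ [false]) (τ := σ ++ [true]) (by simp) (by simp)
      have h5 : (0 : ℝ) < (1 / 4) ^ (σ ++ [false]).length := by positivity
      have h6 := lo_le_hi (σ ++ [true])
      have h7 := lo_le_hi (σ ++ [false])
      rcases h4 with h4 | h4
      · linarith
      · have h8 := lo_append σ true
        have h9 := lo_append σ false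
        have h10 : (0 : ℝ) < (2 * 2 ^ σ.length + 3) / 2 ^ (2 * σ.length + 3) := by positivity
        simp only [if_true, Bool.false_eq_true, if_false] at h8 h9
        linarith

theorem pre_cd_of_mem {z : ℝ} {σ : List Bool} (h : z ∈ J σ) : pre (cd z) σ.length = σ := by
  rw [pre_cd]
  exact cdl_of_mem h

/-- level sets -/
def Fl (n : ℕ) : Set ℝ := {z | z ∈ J (pre (cd z) n)}

theorem mem_Fl_iff {z : ℝ} {n : ℕ} : z ∈ Fl n ↔ z ∈ J (pre (cd z) n) := by
  rw [Fl, mem_ofPred_eq]

theorem mem_Fl {z : ℝ} {n : ℕ} : z ∈ Fl n ↔ ∃ σ : List Bool, σ.length = n ∧ z ∈ J σ := by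
  rw [mem_Fl_iff]
  constructor
  · intro h
    exact ⟨_, length_pre _ _, h⟩
  · rintro ⟨σ, rfl, h⟩
    rw [pre_cd_of_mem h]
    exact h

theorem J_subset_Fl {σ : List Bool} {n : ℕ} (h : n ≤ σ.length) : J σ ⊆ Fl n := by
  intro z hz
  rw [mem_Fl]
  exact ⟨σ.take n, by simp [h], J_mono (List.take_prefix _ _) hz⟩

theorem Fl_anti : Antitone Fl := by
  intro m n h z hz
  rw [mem_Fl_iff] at hz
  exact J_subset_Fl (σ := pre (cd z) n) (by rw [length_pre]; exact h) hz

/-- the fat Cantor set -/
def Fat : Set ℝ := ⋂ n, Fl n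

theorem mem_Fat {z : ℝ} : z ∈ Fat ↔ ∀ n, z ∈ J (pre (cd z) n) := by
  rw [Fat, mem_iInter]
  exact forall_congr' (fun n => mem_Fl_iff)

theorem Fl_eq (n : ℕ) : Fl n = ⋃ v : Fin n → Bool, J (List.ofFn v) := by
  ext z
  rw [mem_Fl, mem_iUnion]
  constructor
  · rintro ⟨σ, rfl, h⟩
    exact ⟨σ.get, by rw [List.ofFn_get]; exact h⟩
  · rintro ⟨v, h⟩
    exact ⟨_, by simp, h⟩

theorem isClosed_J (σ : List Bool) : IsClosed (J σ) := isClosed_Icc

theorem isClosed_Fl (n : ℕ) : IsClosed (Fl n) := by
  rw [Fl_eq]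
  exact isClosed_iUnion_of_finite (fun v => isClosed_J _)

theorem isClosed_Fat : IsClosed Fat := isClosed_iInter isClosed_Fl

theorem J_nil : J [] = Icc 0 1 := by
  rw [J, lo, hi, nu_nil]
  norm_num

theorem Fat_subset : Fat ⊆ Icc 0 1 := by
  intro z hz
  have h := mem_Fat.1 hz 0
  rw [pre_zero, J_nil] at h
  exact h

theorem isCompact_Fat : IsCompact Fat :=
  isCompact_Icc.of_isClosed_subset isClosed_Fat Fat_subset

theorem volume_J (σ : List Bool) : volume (J σ) = ENNReal.ofReal (hi σ - lo σ) := by
  rw [J, Real.volume_Icc]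

theorem volume_Fl (n : ℕ) : ENNReal.ofReal (1 / 2) ≤ volume (Fl n) := by
  rw [Fl_eq, measure_iUnion]
  · rw [tsum_fintype]
    have h1 : ∀ v : Fin n → Bool, volume (J (List.ofFn v)) =
        ENNReal.ofReal ((2 ^ n + 1) / 2 ^ (2 * n + 1)) := by
      intro v
      rw [volume_J, hi_sub_lo, List.length_ofFn]
    rw [Finset.sum_congr rfl (fun v _ => h1 v), Finset.sum_const, Finset.card_univ,
      Fintype.card_fun, Fintype.card_bool, Fintype.card_fin, ← ENNReal.ofReal_nsmul]
    apply ENNReal.ofReal_le_ofReal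
    rw [nsmul_eq_mul]
    push_cast
    have h2 : (2 : ℝ) ^ (2 * n + 1) = 2 * (2 ^ n * 2 ^ n) := by ring
    rw [h2, ← mul_div_assoc, div_le_div_iff₀ (by positivity) (by positivity)]
    have h3 : (0 : ℝ) < 2 ^ n := by positivity
    nlinarith
  · intro v w hvw
    rw [Function.onFun, Set.disjoint_left]
    intro z hz hz'
    apply hvw
    apply List.ofFn_injective
    rw [← pre_cd_of_mem hz, ← pre_cd_of_mem hz']
    simp
  · intro v
    exact (isClosed_J _).measurableSet

theorem volume_Fat : ENNReal.ofReal (1 / 2) ≤ volume Fat := by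
  rw [Fat, Fl_anti.measure_iInter (fun n => (isClosed_Fl n).measurableSet.nullMeasurableSet)
    ⟨0, ?_⟩]
  · exact le_iInf volume_Fl
  · apply ne_of_lt
    refine lt_of_le_of_lt (measure_mono (?_ : Fl 0 ⊆ Icc 0 1)) (by simp)
    intro z hz
    rw [mem_Fl_iff, pre_zero, J_nil] at hz
    exact hz

end Pool.Agent.H80.Luzin
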