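import Mathlib
import Pool.Agent.H80.Luzin.Geom

/-!
# The function
-/

namespace Pool.Agent.H80.Luzin

open MeasureTheory Set

/-- all strings of length `n` -/
def allL : ℕ → List (List Bool)
  | 0 => [[]]
  | n + 1 => (allL n).flatMap (fun σ => [σ ++ [false], σ ++ [true]])

theorem mem_allL {σ : List Bool} {n : ℕ} : σ ∈ allL n ↔ σ.length = n := by
  induction n generalizing σ with
  | zero => simp [allL]
  | succ n ih =>
    rw [allL, List.mem_flatMap]
    constructor
    · rintro ⟨τ, h1, h2⟩
      rw [ih] at h1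
      simp only [List.mem_cons, List.not_mem_nil, or_false] at h2
      rcases h2 with rfl | rfl <;> simp [h1]
    · intro h
      induction σ using List.reverseRecOn with
      | nil => simp at h
      | append_singleton σ b _ =>
        refine ⟨σ, ?_, ?_⟩
        · rw [ih]
          simpa using h
        · cases b <;> simp

/-- extension of a string by zeros -/
def ext (σ : List Bool) (n : ℕ) : Bool := σ.getD n false

theorem ext_pre {x : ℕ → Bool} {i n : ℕ} (h : i < n) : ext (pre x n) i = x i := by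
  rw [ext, List.getD_eq_getElem?_getD, getElem?_pre x h]
  rfl

/-- bump function of an interval -/
noncomputable def bump (σ : List Bool) (z : ℝ) : ℝ :=
  max 0 (1 - 4 ^ σ.length * max 0 (max (lo σ - z) (z - hi σ)))

theorem bump_nonneg (σ : List Bool) (z : ℝ) : 0 ≤ bump σ z := le_max_left _ _

theorem bump_le_one (σ : List Bool) (z : ℝ) : bump σ z ≤ 1 := by
  rw [bump]
  apply max_le (by norm_num)
  have : 0 ≤ (4 : ℝ) ^ σ.length * max 0 (max (lo σ - z) (z - hi σ)) :=
    mul_nonneg (by positivity) (le_max_left _ _)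
  linarith

theorem bump_eq_one {σ : List Bool} {z : ℝ} (h : z ∈ J σ) : bump σ z = 1 := by
  obtain ⟨h1, h2⟩ := mem_J.1 h
  have h3 : max 0 (max (lo σ - z) (z - hi σ)) = 0 := by
    apply max_eq_left
    apply max_le <;> linarith
  rw [bump, h3]
  norm_num

theorem bump_eq_zero {σ : List Bool} {z : ℝ}
    (h : z + (1 / 4) ^ σ.length ≤ lo σ ∨ hi σ + (1 / 4) ^ σ.length ≤ z) : bump σ z = 0 := by
  have h3 : (1 / 4) ^ σ.length ≤ max 0 (max (lo σ - z) (z - hi σ)) := by
    apply le_max_of_le_right
    rcases h with h | h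
    · apply le_max_of_le_left
      linarith
    · apply le_max_of_le_right
      linarith
  rw [bump]
  apply max_eq_left
  have h4 : (4 : ℝ) ^ σ.length * (1 / 4) ^ σ.length = 1 := by
    rw [← mul_pow]
    norm_num
  have h5 := mul_le_mul_of_nonneg_left h3 (by positivity : (0 : ℝ) ≤ 4 ^ σ.length)
  linarith

theorem bump_lip (σ : List Bool) (z w : ℝ) :
    |bump σ z - bump σ w| ≤ 4 ^ σ.length * |z - w| := by
  rw [bump, bump]
  have h1 : ∀ a b c : ℝ, |max c a - max c b| ≤ |a - b| := by
    intro a b c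
    have := abs_max_sub_max_le_max c a c b
    simpa using this
  have h2 : |max (lo σ - z) (z - hi σ) - max (lo σ - w) (w - hi σ)| ≤ |z - w| := by
    refine (abs_max_sub_max_le_max _ _ _ _).trans ?_
    apply max_le
    · rw [show lo σ - z - (lo σ - w) = -(z - w) by ring, abs_neg]
    · rw [show z - hi σ - (w - hi σ) = z - w by ring]
  refine (h1 _ _ _).trans ?_
  rw [show (1 - 4 ^ σ.length * max 0 (max (lo σ - z) (z - hi σ)) -
    (1 - 4 ^ σ.length * max 0 (max (lo σ - w) (w - hi σ)))) =
    -(4 ^ σ.length * (max 0 (max (lo σ - z) (z - hi σ)) - max 0 (max (lo σ - w) (w - hi σ)))) by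
      ring, abs_neg, abs_mul, abs_of_nonneg (by positivity : (0 : ℝ) ≤ 4 ^ σ.length)]
  exact mul_le_mul_of_nonneg_left ((h1 _ _ _).trans h2) (by positivity)

/-- maximum of a list -/
noncomputable def mx (l : List ℝ) : ℝ := l.foldr max 0

theorem mx_nonneg (l : List ℝ) : 0 ≤ mx l := by
  induction l with
  | nil => exact le_rfl
  | cons a l ih => exact le_max_of_le_right ih

theorem mx_le {l : List ℝ} {c : ℝ} (hc : 0 ≤ c) (h : ∀ a ∈ l, a ≤ c) : mx l ≤ c := by
  induction l with
  | nil => exact hc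
  | cons a l ih =>
    exact max_le (h a (by simp)) (ih (fun b hb => h b (by simp [hb])))

theorem le_mx {l : List ℝ} {a : ℝ} (h : a ∈ l) : a ≤ mx l := by
  induction l with
  | nil => simp at h
  | cons b l ih =>
    rcases List.mem_cons.1 h with rfl | h
    · exact le_max_left _ _
    · exact le_max_of_le_right (ih h)

theorem mx_lip {α : Type*} {l : List α} {F G : α → ℝ} {c : ℝ} (hc : 0 ≤ c)
    (h : ∀ a ∈ l, |F a - G a| ≤ c) : |mx (l.map F) - mx (l.map G)| ≤ c := by
  induction l with
  | nil => simpa [mx] using hc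
  | cons a l ih =>
    have h1 : ∀ H : α → ℝ, mx ((a :: l).map H) = max (H a) (mx (l.map H)) := fun _ => rfl
    rw [h1, h1]
    refine (abs_max_sub_max_le_max _ _ _ _).trans (max_le (h a (by simp)) ?_)
    exact ih (fun b hb => h b (by simp [hb]))

variable (R : List Bool → ℕ → Bool)

/-- the bump of the strings with output bit one -/
noncomputable def bo (t : ℕ) (z : ℝ) (σ : List Bool) : ℝ :=
  if outb R (ext σ) t = true then bump σ z else 0

/-- the components of the function -/
noncomputable def hh (t : ℕ) (z : ℝ) : ℝ := mx ((allL (2 * t + 2)).map (bo R t z))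

theorem bo_nonneg (t : ℕ) (z : ℝ) (σ : List Bool) : 0 ≤ bo R t z σ := by
  rw [bo]
  split_ifs
  · exact bump_nonneg _ _
  · exact le_rfl

theorem bo_le_one (t : ℕ) (z : ℝ) (σ : List Bool) : bo R t z σ ≤ 1 := by
  rw [bo]
  split_ifs
  · exact bump_le_one _ _
  · norm_num

theorem hh_nonneg (t : ℕ) (z : ℝ) : 0 ≤ hh R t z := mx_nonneg _

theorem hh_le_one (t : ℕ) (z : ℝ) : hh R t z ≤ 1 := by
  apply mx_le (by norm_num)
  intro a ha
  obtain ⟨σ, -, rfl⟩ := List.mem_map.1 ha
  exact bo_le_one R t z σ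

theorem hh_lip (t : ℕ) (z w : ℝ) : |hh R t z - hh R t w| ≤ 4 ^ (2 * t + 2) * |z - w| := by
  apply mx_lip (by positivity)
  intro σ hσ
  rw [mem_allL] at hσ
  rw [bo, bo]
  split_ifs
  · have := bump_lip σ z w
    rwa [hσ] at this
  · simp only [sub_self, abs_zero]
    positivity

theorem outb_congr {x x' : ℕ → Bool} {t : ℕ} (h : ∀ j < 2 * t + 2, x j = x' j) :
    outb R x t = outb R x' t := by
  have h1 := slots_congr R (x := x) (x' := x') (t := t + 1) (fun j hj => h j (by
    have := length_slots_le R x (t + 1)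
    omega))
  have h2 := h1.2
  rw [outs, outs] at h2
  exact (List.cons.inj h2).1

/-- the value at the points of the fat Cantor set -/
theorem hh_eq {z : ℝ} {t : ℕ} (hz : z ∈ Fl (2 * t + 2)) :
    hh R t z = if outb R (cd z) t = true then 1 else 0 := by
  rw [mem_Fl_iff] at hz
  have hout : outb R (ext (pre (cd z) (2 * t + 2))) t = outb R (cd z) t :=
    outb_congr R (fun j hj => ext_pre hj)
  split_ifs with h
  · apply le_antisymm (hh_le_one R t z)
    have h1 : bo R t z (pre (cd z) (2 * t + 2)) = 1 := by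
      rw [bo, if_pos (by rw [hout]; exact h)]
      exact bump_eq_one hz
    rw [← h1]
    apply le_mx
    apply List.mem_map_of_mem
    rw [mem_allL]
    simp
  · apply le_antisymm _ (hh_nonneg R t z)
    apply mx_le le_rfl
    intro a ha
    obtain ⟨σ, hσ, rfl⟩ := List.mem_map.1 ha
    rw [mem_allL] at hσ
    by_cases h2 : σ = pre (cd z) (2 * t + 2)
    · rw [bo, h2, if_neg (by rw [hout]; exact h)]
    · rw [bo]
      split_ifs
      · apply le_of_eq
        apply bump_eq_zero
        have h3 := dist_sep (σ := pre (cd z) (2 * t + 2)) (τ := σ) (by simp [hσ]) (Ne.symm h2)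
        rw [length_pre, ← hσ] at h3
        rw [← hσ] at hz
        rcases h3 with h3 | h3
        · left
          have := (mem_J.1 hz).2
          linarith
        · right
          have := (mem_J.1 hz).1
          linarith
      · exact le_rfl

/-- off the fat Cantor set almost all components vanish -/
theorem hh_eventually_zero {z : ℝ} (hz : z ∉ Fat) : ∃ N, ∀ t ≥ N, hh R t z = 0 := by
  have h1 : ∃ n, z ∉ Fl n := by
    rw [Fat, mem_iInter] at hz
    push Not at hz
    exact hz
  obtain ⟨n, hn⟩ := h1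
  have hn' : z ∈ (Fl n)ᶜ := by
    rw [mem_compl_iff]
    exact hn
  obtain ⟨δ, hδ, hball⟩ := Metric.isOpen_iff.1 (isClosed_Fl n).isOpen_compl z hn'
  obtain ⟨m, hm⟩ := exists_pow_lt_of_lt_one hδ (by norm_num : (1 : ℝ) / 4 < 1)
  refine ⟨max n m, fun t ht => ?_⟩
  apply le_antisymm _ (hh_nonneg R t z)
  apply mx_le le_rfl
  intro a ha
  obtain ⟨σ, hσ, rfl⟩ := List.mem_map.1 ha
  rw [mem_allL] at hσ
  rw [bo]
  split_ifs
  · apply le_of_eq
    apply bump_eq_zero
    have h2 : (1 / 4 : ℝ) ^ σ.length ≤ (1 / 4) ^ m := by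
      apply pow_le_pow_of_le_one (by norm_num) (by norm_num)
      have := le_max_right n m
      omega
    have h3 : ∀ w ∈ J σ, δ ≤ |w - z| := by
      intro w hw
      by_contra h4
      push Not at h4
      have h5 : w ∈ Metric.ball z δ := by
        rw [Metric.mem_ball, Real.dist_eq]
        exact h4
      have h6 := hball h5
      rw [mem_compl_iff] at h6
      exact h6 (J_subset_Fl (σ := σ) (by have := le_max_left n m; omega) hw)
    by_cases h6 : z < lo σ
    · left
      have h7 := h3 (lo σ) (mem_J.2 ⟨le_rfl, lo_le_hi σ⟩)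
      rw [abs_of_nonneg (by linarith)] at h7
      linarith
    · right
      have h7 := h3 (hi σ) (mem_J.2 ⟨lo_le_hi σ, le_rfl⟩)
      have h8 : hi σ < z := by
        by_contra h9
        push Not at h6 h9
        have := h3 z (mem_J.2 ⟨h6, h9⟩)
        simp only [sub_self, abs_zero] at this
        linarith
      rw [abs_of_nonpos (by linarith)] at h7
      linarith
  · exact le_rfl

/-! ### The sum -/

theorem summable_aux {a : ℕ → ℝ} (h0 : ∀ t, 0 ≤ a t) (h1 : ∀ t, a t ≤ 1) :
    Summable (fun t => a t * (1 / 2) ^ (t + 1)) := by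
  have h2 : Summable (fun t : ℕ => ((1 : ℝ) / 2) ^ (t + 1)) :=
    (summable_nat_add_iff 1).2 (summable_geometric_of_lt_one (by norm_num) (by norm_num))
  refine Summable.of_nonneg_of_le (fun t => mul_nonneg (h0 t) (by positivity)) (fun t => ?_) h2
  exact mul_le_of_le_one_left (by positivity) (h1 t)

theorem tsum_pow_aux (N : ℕ) : ∑' t : ℕ, ((1 : ℝ) / 2) ^ (t + N + 1) = (1 / 2) ^ N := by
  have h1 : ∀ t : ℕ, ((1 : ℝ) / 2) ^ (t + N + 1) = (1 / 2) ^ (N + 1) * (1 / 2) ^ t := by
    intro t
    ring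
  simp_rw [h1]
  rw [tsum_mul_left, tsum_geometric_of_lt_one (by norm_num) (by norm_num), pow_succ]
  norm_num
  ring

theorem tsum_bounds {a : ℕ → ℝ} (h0 : ∀ t, 0 ≤ a t) (h1 : ∀ t, a t ≤ 1) (N : ℕ) :
    ∑ t ∈ Finset.range N, a t * (1 / 2) ^ (t + 1) ≤ ∑' t, a t * (1 / 2) ^ (t + 1) ∧
    ∑' t, a t * (1 / 2) ^ (t + 1) ≤
      ∑ t ∈ Finset.range N, a t * (1 / 2) ^ (t + 1) + (1 / 2) ^ N := by
  have hs := summable_aux h0 h1
  rw [← hs.sum_add_tsum_nat_add N]
  have h2 : 0 ≤ ∑' t, a (t + N) * (1 / 2) ^ (t + N + 1) :=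
    tsum_nonneg (fun t => mul_nonneg (h0 _) (by positivity))
  have h3 : ∑' t, a (t + N) * (1 / 2) ^ (t + N + 1) ≤ (1 / 2) ^ N := by
    rw [← tsum_pow_aux N]
    apply Summable.tsum_le_tsum
    · intro t
      exact mul_le_of_le_one_left (by positivity) (h1 _)
    · exact (summable_nat_add_iff (f := fun t => a t * (1 / 2) ^ (t + 1)) N).2 hs
    · have : Summable (fun t : ℕ => ((1 : ℝ) / 2) ^ (t + (N + 1))) :=
        (summable_nat_add_iff (N + 1)).2
          (summable_geometric_of_lt_one (by norm_num) (by norm_num))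
      simpa [add_assoc] using this
  constructor <;> linarith

/-- the function -/
noncomputable def ff (z : ℝ) : ℝ := ∑' t, hh R t z * (1 / 2) ^ (t + 1)

/-- partial sums -/
noncomputable def ps (N : ℕ) (z : ℝ) : ℝ := ∑ t ∈ Finset.range N, hh R t z * (1 / 2) ^ (t + 1)

theorem ps_le_ff (N : ℕ) (z : ℝ) : ps R N z ≤ ff R z :=
  (tsum_bounds (hh_nonneg R · z) (hh_le_one R · z) N).1

theorem ff_le_ps (N : ℕ) (z : ℝ) : ff R z ≤ ps R N z + (1 / 2) ^ N :=
  (tsum_bounds (hh_nonneg R · z) (hh_le_one R · z) N).2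

theorem ps_lip (N : ℕ) (z w : ℝ) : |ps R N z - ps R N w| ≤ 16 ^ N * |z - w| := by
  rw [ps, ps, ← Finset.sum_sub_distrib]
  refine (Finset.abs_sum_le_sum_abs _ _).trans ?_
  have h1 : ∀ t ∈ Finset.range N, |hh R t z * (1 / 2) ^ (t + 1) - hh R t w * (1 / 2) ^ (t + 1)| ≤
      16 ^ N * |z - w| * (1 / 2) ^ (t + 1) := by
    intro t ht
    rw [Finset.mem_range] at ht
    rw [← sub_mul, abs_mul, abs_of_nonneg (by positivity : (0 : ℝ) ≤ (1 / 2) ^ (t + 1))]
    gcongr
    refine (hh_lip R t z w).trans ?_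
    gcongr
    rw [show (16 : ℝ) = 4 ^ 2 by norm_num, ← pow_mul]
    apply pow_le_pow_right₀ (by norm_num)
    omega
  refine (Finset.sum_le_sum h1).trans ?_
  rw [← Finset.mul_sum]
  have h2 : ∑ t ∈ Finset.range N, ((1 : ℝ) / 2) ^ (t + 1) ≤ 1 := by
    have h3 := (tsum_bounds (a := fun _ => 1) (fun _ => by norm_num) (fun _ => le_rfl) N).1
    simp only [one_mul] at h3
    have h4 := tsum_pow_aux 0
    simp only [add_zero, pow_zero] at h4
    rw [h4] at h3
    exact h3
  exact mul_le_of_le_one_right (by positivity) h2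

theorem ff_mod (N : ℕ) (z w : ℝ) :
    |ff R z - ff R w| ≤ 16 ^ N * |z - w| + (1 / 2) ^ N := by
  have h1 := ps_lip R N z w
  have h2 := ps_le_ff R N z
  have h3 := ps_le_ff R N w
  have h4 := ff_le_ps R N z
  have h5 := ff_le_ps R N w
  rw [abs_le] at h1 ⊢
  constructor <;> linarith

theorem ff_continuous : Continuous (ff R) := by
  rw [Metric.continuous_iff]
  intro z ε hε
  obtain ⟨N, hN⟩ := exists_pow_lt_of_lt_one (half_pos hε) (by norm_num : (1 : ℝ) / 2 < 1)
  refine ⟨ε / 2 / 16 ^ N, by positivity, fun w hw => ?_⟩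
  rw [Real.dist_eq] at hw ⊢
  have h1 := ff_mod R N w z
  rw [lt_div_iff₀ (by positivity)] at hw
  rw [mul_comm] at hw
  linarith

theorem ff_nonneg (z : ℝ) : 0 ≤ ff R z := by
  have := ps_le_ff R 0 z
  simpa [ps] using this

theorem ff_le_one (z : ℝ) : ff R z ≤ 1 := by
  have := ff_le_ps R 0 z
  simpa [ps] using this

/-- the value of a (reversed) output string -/
noncomputable def valo : List Bool → ℝ
  | [] => 0
  | b :: s => valo s + if b then (1 / 2) ^ (s.length + 1) else 0

theorem valo_sep {s u : List Bool} (hl : s.length = u.length) (hne : s ≠ u) :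
    valo s + (1 / 2) ^ s.length ≤ valo u ∨ valo u + (1 / 2) ^ s.length ≤ valo s := by
  induction s generalizing u with
  | nil =>
    exfalso
    apply hne
    symm
    rw [← List.length_eq_zero_iff, ← hl]
    rfl
  | cons b s ih =>
    cases u with
    | nil => simp at hl
    | cons c u =>
      simp only [List.length_cons, add_left_inj] at hl
      rw [valo, valo, ← hl, List.length_cons]
      have hp : (0 : ℝ) < (1 / 2) ^ (s.length + 1) := by positivity
      have hq : (1 / 2 : ℝ) ^ s.length = 2 * (1 / 2) ^ (s.length + 1) := by ring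
      by_cases h : s = u
      · subst h
        cases b <;> cases c
        · exact absurd rfl hne
        · left; simp
        · right; simp
        · exact absurd rfl hne
      · rcases ih hl h with h1 | h1
        · left
          cases b <;> cases c <;> simp only [if_true, Bool.false_eq_true, if_false] <;> linarith
        · right
          cases b <;> cases c <;> simp only [if_true, Bool.false_eq_true, if_false] <;> linarith

theorem ps_eq_valo {z : ℝ} (hz : z ∈ Fat) (t : ℕ) : ps R t z = valo (outs R (cd z) t) := by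
  induction t with
  | zero => simp [ps, outs, valo]
  | succ t ih =>
    have h1 : ps R (t + 1) z = ps R t z + hh R t z * (1 / 2) ^ (t + 1) := by
      rw [ps, ps, Finset.sum_range_succ]
    rw [h1, ih, outs, valo, length_outs, hh_eq R (by rw [mem_Fl_iff]; exact mem_Fat.1 hz _)]
    split_ifs <;> simp

theorem ff_mem {z : ℝ} (hz : z ∈ Fat) (t : ℕ) :
    ff R z ∈ Icc (valo (outs R (cd z) t)) (valo (outs R (cd z) t) + (1 / 2) ^ t) := by
  rw [← ps_eq_valo R hz, mem_Icc]
  exact ⟨ps_le_ff R t z, ff_le_ps R t z⟩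

end Pool.Agent.H80.Luzin
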