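import Mathlib
import Pool.Agent.H80.Luzin.Func

/-!
# Measure theoretic part
-/

namespace Pool.Agent.H80.Luzin

open MeasureTheory Set

variable (R : List Bool → ℕ → Bool)

/-- sets depending on finitely many bits are closed -/
theorem isClosed_dep (n : ℕ) (p : List Bool → Prop) :
    IsClosed {z | z ∈ Fat ∧ p (pre (cd z) n)} := by
  have hfin : {σ : List Bool | σ.length = n ∧ p σ}.Finite := by
    apply (List.finite_length_eq Bool n).subset
    intro σ h
    rw [mem_ofPred_eq] at h ⊢
    exact h.1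
  have h : {z | z ∈ Fat ∧ p (pre (cd z) n)} =
      Fat ∩ ⋃ σ ∈ {σ : List Bool | σ.length = n ∧ p σ}, J σ := by
    ext z
    rw [mem_ofPred_eq, mem_inter_iff, mem_iUnion₂]
    constructor
    · rintro ⟨h1, h2⟩
      refine ⟨h1, pre (cd z) n, ?_, mem_Fat.1 h1 n⟩
      rw [mem_ofPred_eq]
      exact ⟨length_pre _ _, h2⟩
    · rintro ⟨h1, σ, h2, h3⟩
      rw [mem_ofPred_eq] at h2
      obtain ⟨rfl, h2⟩ := h2
      rw [pre_cd_of_mem h3]
      exact ⟨h1, h2⟩
  rw [h]
  exact isClosed_Fat.inter (hfin.isClosed_biUnion (fun σ _ => isClosed_J σ))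

theorem vol_list (l : List (List Bool)) :
    volume {z | ∃ σ ∈ l, z ∈ J σ} ≤ ENNReal.ofReal ((l.map fun σ => ((1 : ℝ) / 2) ^ σ.length).sum) := by
  induction l with
  | nil => simp
  | cons a l ih =>
    have h1 : {z | ∃ σ ∈ a :: l, z ∈ J σ} ⊆ J a ∪ {z | ∃ σ ∈ l, z ∈ J σ} := by
      intro z hz
      rw [mem_ofPred_eq] at hz
      obtain ⟨σ, hσ, hz⟩ := hz
      rw [mem_union, mem_ofPred_eq]
      rcases List.mem_cons.1 hσ with rfl | hσ
      · exact Or.inl hz
      · exact Or.inr ⟨σ, hσ, hz⟩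
    rw [List.map_cons, List.sum_cons, ENNReal.ofReal_add (by positivity)]
    · refine (measure_mono h1).trans ((measure_union_le _ _).trans ?_)
      refine add_le_add ?_ ih
      rw [volume_J]
      exact ENNReal.ofReal_le_ofReal (len_le a)
    · apply List.sum_nonneg
      intro x hx
      obtain ⟨σ, -, rfl⟩ := List.mem_map.1 hx
      positivity

/-- the image of a compact subset of `Fat` on which slots are stable is large -/
theorem key_A {D : Set ℝ} (hD : IsCompact D) (hsub : D ⊆ Fat) {t₀ : ℕ} {v : List Bool}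
    (hv : ∀ z ∈ D, ∀ t ≥ t₀, v <+: slots R (cd z) t) :
    volume D * 2 ^ v.length ≤ volume (ff R '' D) := by
  have main : ∀ t ≥ t₀, volume D * 2 ^ v.length ≤
      volume (Metric.cthickening ((1 / 2) ^ t) (ff R '' D)) := by
    intro t ht
    have hfin : ((fun z => outs R (cd z) t) '' D).Finite := by
      apply (List.finite_length_eq Bool t).subset
      intro s hs
      rw [mem_image] at hs
      obtain ⟨z, -, rfl⟩ := hs
      rw [mem_ofPred_eq]
      exact length_outs R _ _
    have hlen : ∀ s ∈ hfin.toFinset, s.length = t := by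
      intro s hs
      rw [Set.Finite.mem_toFinset, mem_image] at hs
      obtain ⟨z, -, rfl⟩ := hs
      exact length_outs R _ _
    have h1 : volume D ≤ ∑ s ∈ hfin.toFinset, ENNReal.ofReal ((1 / 2) ^ (t + v.length)) := by
      have hcov : D ⊆ ⋃ s ∈ hfin.toFinset, {z | ∃ σ ∈ cov R s v, z ∈ J σ} := by
        intro z hz
        rw [mem_iUnion₂]
        refine ⟨outs R (cd z) t, ?_, ?_⟩
        · rw [Set.Finite.mem_toFinset, mem_image]
          exact ⟨z, hz, rfl⟩
        · rw [mem_ofPred_eq]
          exact ⟨_, mem_cov R (hv z hz t ht), mem_Fat.1 (hsub hz) _⟩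
      refine (measure_mono hcov).trans ((measure_biUnion_finset_le _ _).trans ?_)
      apply Finset.sum_le_sum
      intro s hs
      refine (vol_list _).trans (ENNReal.ofReal_le_ofReal ?_)
      have := weight_cov R s v
      rwa [hlen s hs] at this
    have h2 : ∑ s ∈ hfin.toFinset, ENNReal.ofReal ((1 / 2) ^ t) ≤
        volume (Metric.cthickening ((1 / 2) ^ t) (ff R '' D)) := by
      have h3 : ∑ s ∈ hfin.toFinset, ENNReal.ofReal ((1 / 2) ^ t) =
          volume (⋃ s ∈ hfin.toFinset, Ico (valo s) (valo s + (1 / 2) ^ t)) := by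
        rw [measure_biUnion_finset]
        · apply Finset.sum_congr rfl
          intro s _
          rw [Real.volume_Ico]
          congr 1
          ring
        · intro s hs u hu hsu
          rw [Finset.mem_coe] at hs hu
          rw [Function.onFun, Set.disjoint_left]
          intro y hy hy'
          rw [mem_Ico] at hy hy'
          have h4 := valo_sep (s := s) (u := u) (by rw [hlen s hs, hlen u hu]) hsu
          rw [hlen s hs] at h4
          rcases h4 with h4 | h4
          · linarith [hy.2, hy'.1]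
          · linarith [hy.1, hy'.2]
        · intro s _
          exact measurableSet_Ico
      rw [h3]
      apply measure_mono
      intro y hy
      rw [mem_iUnion₂] at hy
      obtain ⟨s, hs, hy⟩ := hy
      rw [Set.Finite.mem_toFinset, mem_image] at hs
      obtain ⟨z, hz, rfl⟩ := hs
      apply Metric.mem_cthickening_of_dist_le y (ff R z) _ _ (mem_image_of_mem _ hz)
      have h4 := ff_mem R (hsub hz) t
      rw [mem_Icc] at h4
      rw [mem_Ico] at hy
      rw [Real.dist_eq, abs_le]
      constructor <;> linarith [h4.1, h4.2, hy.1, hy.2]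
    refine le_trans ?_ h2
    refine (mul_le_mul_left h1 _).trans ?_
    rw [Finset.sum_mul]
    apply Finset.sum_le_sum
    intro s _
    have h5 : (2 : ENNReal) ^ v.length = ENNReal.ofReal (2 ^ v.length) := by
      rw [ENNReal.ofReal_pow (by norm_num)]
      norm_num
    rw [h5, ← ENNReal.ofReal_mul (by positivity)]
    apply ENNReal.ofReal_le_ofReal
    rw [pow_add, mul_assoc, ← mul_pow]
    norm_num
  have hlim := tendsto_measure_cthickening_of_isCompact (μ := (volume : Measure ℝ))
    (hD.image (ff_continuous R))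
  have hpow : Filter.Tendsto (fun t : ℕ => ((1 : ℝ) / 2) ^ t) Filter.atTop (nhds 0) :=
    tendsto_pow_atTop_nhds_zero_of_lt_one (by norm_num) (by norm_num)
  exact ge_of_tendsto (hlim.comp hpow) (Filter.eventually_atTop.2 ⟨t₀, main⟩)

/-- images of cylinders -/
theorem image_cyl {x : ℕ → Bool} {t : ℕ} :
    volume (ff R '' (Fat ∩ J (pre x (t + (slots R x t).length)))) ≤
      ENNReal.ofReal ((1 / 2) ^ t) := by
  have h1 : ff R '' (Fat ∩ J (pre x (t + (slots R x t).length))) ⊆
      Icc (valo (outs R x t)) (valo (outs R x t) + (1 / 2) ^ t) := by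
    intro y hy
    rw [mem_image] at hy
    obtain ⟨z, hz, rfl⟩ := hy
    rw [mem_inter_iff] at hz
    have h2 := pre_cd_of_mem hz.2
    rw [length_pre] at h2
    have h3 := (slots_congr R (x := x) (x' := cd z) (t := t)
      (fun j hj => (eq_of_pre_eq h2 hj).symm)).2
    rw [h3]
    exact ff_mem R hz.1 t
  refine (measure_mono h1).trans ?_
  rw [Real.volume_Icc]
  apply ENNReal.ofReal_le_ofReal
  linarith

/-- null sets on which the number of slots is bounded infinitely often have null image -/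
theorem key_B {P : Set ℝ} (hP : volume P = 0) (hsub : P ⊆ Fat) {r : ℕ}
    (hr : ∀ z ∈ P, ∀ N, ∃ t ≥ N, (slots R (cd z) t).length ≤ r) :
    volume (ff R '' P) = 0 := by
  have key : ∀ ε : ENNReal, 0 < ε → volume (ff R '' P) ≤ 2 ^ (r + 1) * ε := by
    intro ε hε
    obtain ⟨V, hPV, hV, hVε⟩ := P.exists_isOpen_lt_of_lt ε (by rw [hP]; exact hε)
    let S : Set (List Bool) := {σ | J σ ⊆ V ∧ ∃ x t, (slots R x t).length ≤ r ∧
      σ = pre x (t + (slots R x t).length)}
    have hSdef : ∀ σ, σ ∈ S ↔ J σ ⊆ V ∧ ∃ x t, (slots R x t).length ≤ r ∧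
      σ = pre x (t + (slots R x t).length) := fun σ => Iff.rfl
    clear_value S
    let M : Set (List Bool) := {σ | σ ∈ S ∧ ∀ τ ∈ S, τ <+: σ → τ = σ}
    have hMdef : ∀ σ, σ ∈ M ↔ σ ∈ S ∧ ∀ τ ∈ S, τ <+: σ → τ = σ := fun σ => Iff.rfl
    clear_value M
    have hcov : P ⊆ ⋃ σ ∈ M, Fat ∩ J σ := by
      intro z hz
      have hzF := hsub hz
      obtain ⟨δ, hδ, hball⟩ := Metric.isOpen_iff.1 hV z (hPV hz)
      obtain ⟨m, hm⟩ := exists_pow_lt_of_lt_one hδ (by norm_num : (1 : ℝ) / 2 < 1)
      obtain ⟨t, ht, hslots⟩ := hr z hz m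
      have hex : ∃ n, pre (cd z) n ∈ S := by
        refine ⟨t + (slots R (cd z) t).length, ?_⟩
        rw [hSdef]
        refine ⟨?_, _, _, hslots, rfl⟩
        intro w hw
        apply hball
        rw [Metric.mem_ball, Real.dist_eq]
        have h1 := mem_J.1 (mem_Fat.1 hzF (t + (slots R (cd z) t).length))
        have h2 := mem_J.1 hw
        have h3 := len_le (pre (cd z) (t + (slots R (cd z) t).length))
        rw [length_pre] at h3
        have h4 : (1 / 2 : ℝ) ^ (t + (slots R (cd z) t).length) ≤ (1 / 2) ^ m :=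
          pow_le_pow_of_le_one (by norm_num) (by norm_num) (by omega)
        rw [abs_lt]
        constructor <;> linarith [h1.1, h1.2, h2.1, h2.2]
      classical
      rw [mem_iUnion₂]
      refine ⟨pre (cd z) (Nat.find hex), ?_, ?_⟩
      · rw [hMdef]
        refine ⟨Nat.find_spec hex, fun τ hτ hpre => ?_⟩
        have h1 := hpre.length_le
        rw [length_pre] at h1
        have h2 : τ = pre (cd z) τ.length := by
          rw [List.prefix_iff_eq_take, take_pre _ h1] at hpre
          exact hpre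
        have h3 : Nat.find hex ≤ τ.length := by
          apply Nat.find_min'
          rw [← h2]
          exact hτ
        rw [h2, le_antisymm h1 h3]
      · rw [mem_inter_iff]
        exact ⟨hzF, mem_Fat.1 hzF _⟩
    have hcount : M.Countable := Set.to_countable M
    have h1 : ∑' σ : M, volume (J σ.1) ≤ ε := by
      rw [← measure_biUnion hcount]
      · refine le_trans (measure_mono ?_) hVε.le
        intro z hz
        rw [mem_iUnion₂] at hz
        obtain ⟨σ, hσ, hz⟩ := hz
        exact ((hSdef σ).1 ((hMdef σ).1 hσ).1).1 hz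
      · intro σ hσ τ hτ hne
        rw [Function.onFun, Set.disjoint_left]
        intro z hz hz'
        apply hne
        have h2 := pre_cd_of_mem hz
        have h3 := pre_cd_of_mem hz'
        rw [hMdef] at hσ hτ
        rcases le_total σ.length τ.length with h | h
        · apply hτ.2 σ hσ.1
          rw [← h2, ← h3]
          exact pre_isPre _ h
        · symm
          apply hσ.2 τ hτ.1
          rw [← h2, ← h3]
          exact pre_isPre _ h
      · intro σ _
        exact (isClosed_J σ).measurableSet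
    have h2 : ∀ σ ∈ M, volume (ff R '' (Fat ∩ J σ)) ≤ 2 ^ (r + 1) * volume (J σ) := by
      intro σ hσ
      rw [hMdef, hSdef] at hσ
      obtain ⟨⟨-, x, t, hlen, rfl⟩, -⟩ := hσ
      refine (image_cyl R).trans ?_
      rw [volume_J]
      have h5 : (2 : ENNReal) ^ (r + 1) = ENNReal.ofReal (2 ^ (r + 1)) := by
        rw [ENNReal.ofReal_pow (by norm_num)]
        norm_num
      rw [h5, ← ENNReal.ofReal_mul (by positivity)]
      apply ENNReal.ofReal_le_ofReal
      have h6 := le_len (pre x (t + (slots R x t).length))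
      rw [length_pre] at h6
      have h7 : (1 / 2 : ℝ) ^ (t + (r + 1)) ≤ (1 / 2) ^ (t + (slots R x t).length + 1) :=
        pow_le_pow_of_le_one (by norm_num) (by norm_num) (by omega)
      have h8 : (1 / 2 : ℝ) ^ t = 2 ^ (r + 1) * (1 / 2) ^ (t + (r + 1)) := by
        rw [pow_add (1 / 2 : ℝ) t, mul_comm ((1 / 2 : ℝ) ^ t), ← mul_assoc, ← mul_pow]
        norm_num
      rw [h8]
      exact mul_le_mul_of_nonneg_left (h7.trans h6) (by positivity)
    calc volume (ff R '' P) ≤ volume (⋃ σ ∈ M, ff R '' (Fat ∩ J σ)) := by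
          apply measure_mono
          rw [← image_iUnion₂]
          exact image_mono hcov
      _ ≤ ∑' σ : M, volume (ff R '' (Fat ∩ J σ.1)) := measure_biUnion_le _ hcount _
      _ ≤ ∑' σ : M, 2 ^ (r + 1) * volume (J σ.1) := by
          apply ENNReal.tsum_le_tsum
          intro σ
          exact h2 σ.1 σ.2
      _ = 2 ^ (r + 1) * ∑' σ : M, volume (J σ.1) := ENNReal.tsum_mul_left
      _ ≤ 2 ^ (r + 1) * ε := by gcongr
  by_contra hne
  have hpos : 0 < volume (ff R '' P) := pos_iff_ne_zero.2 hne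
  have hpow0 : (2 : ENNReal) ^ (r + 2) ≠ 0 := by positivity
  have hpowt : (2 : ENNReal) ^ (r + 2) ≠ ⊤ := ENNReal.pow_ne_top (by norm_num)
  have hfin : volume (ff R '' P) ≠ ⊤ := by
    apply ne_of_lt
    refine lt_of_le_of_lt (measure_mono (?_ : ff R '' P ⊆ Icc 0 1)) (by simp)
    intro y hy
    rw [mem_image] at hy
    obtain ⟨z, -, rfl⟩ := hy
    rw [mem_Icc]
    exact ⟨ff_nonneg R z, ff_le_one R z⟩
  have h := key (volume (ff R '' P) / 2 ^ (r + 2)) (ENNReal.div_pos hne hpowt)
  have h2 : (2 : ENNReal) ^ (r + 1) * (volume (ff R '' P) / 2 ^ (r + 2)) =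
      volume (ff R '' P) / 2 := by
    rw [pow_succ (2 : ENNReal) (r + 1), div_eq_mul_inv, div_eq_mul_inv,
      ENNReal.mul_inv (Or.inr (by norm_num)) (Or.inr (by norm_num))]
    rw [mul_comm ((2 : ENNReal) ^ (r + 1)), mul_assoc, mul_comm ((2 ^ (r + 1))⁻¹ : ENNReal),
      mul_assoc, ENNReal.inv_mul_cancel (by positivity) (ENNReal.pow_ne_top (by norm_num)),
      mul_one]
  rw [h2] at h
  exact absurd h (not_le.2 (ENNReal.half_lt_self hne hfin))

/-- null sets outside of `Fat` have null image -/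
theorem key_N {P : Set ℝ} (hP : volume P = 0) (hdis : ∀ z ∈ P, z ∉ Fat) :
    volume (ff R '' P) = 0 := by
  have hcov : ff R '' P ⊆ ⋃ N, ps R N '' P := by
    intro y hy
    rw [mem_image] at hy
    obtain ⟨z, hz, rfl⟩ := hy
    obtain ⟨N, hN⟩ := hh_eventually_zero R (hdis z hz)
    rw [mem_iUnion]
    refine ⟨N, ?_⟩
    rw [mem_image]
    refine ⟨z, hz, ?_⟩
    rw [ff, ps]
    symm
    apply tsum_eq_sum
    intro t ht
    rw [Finset.mem_range, not_lt] at ht
    rw [hN t ht, zero_mul]
  refine measure_mono_null hcov ?_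
  rw [measure_iUnion_null_iff]
  intro N
  have hl : LipschitzWith (16 ^ N) (ps R N) := by
    apply LipschitzWith.of_dist_le_mul
    intro z w
    rw [Real.dist_eq, Real.dist_eq]
    have := ps_lip R N z w
    push_cast
    exact this
  have h1 := hl.hausdorffMeasure_image_le (d := 1) (by norm_num) P
  rw [hausdorffMeasure_real, hP, mul_zero] at h1
  exact le_antisymm h1 bot_le

/-- the points with a requirement acting infinitely often -/
def Bad : Set ℝ := {z | ∃ i, ∀ N, ∃ a ≥ N, R (pre (cd z) i) a = true}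

theorem mem_Bad {z : ℝ} : z ∈ Bad R ↔ ∃ i, ∀ N, ∃ a ≥ N, R (pre (cd z) i) a = true := by
  rw [Bad, mem_ofPred_eq]

/-- images of null sets which meet `Fat` in `Bad` are null -/
theorem image_null {P : Set ℝ} (hP : volume P = 0) (hbad : ∀ z ∈ P, z ∈ Fat → z ∈ Bad R) :
    volume (ff R '' P) = 0 := by
  have hcov : P ⊆ (P \ Fat) ∪ ⋃ i, {z | z ∈ P ∧ z ∈ Fat ∧
      ∀ N, ∃ a ≥ N, R (pre (cd z) i) a = true} := by
    intro z hz
    rw [mem_union]
    by_cases hF : z ∈ Fat
    · right
      obtain ⟨i, hi⟩ := (mem_Bad R).1 (hbad z hz hF)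
      rw [mem_iUnion]
      refine ⟨i, ?_⟩
      rw [mem_ofPred_eq]
      exact ⟨hz, hF, hi⟩
    · left
      rw [mem_sdiff]
      exact ⟨hz, hF⟩
  refine measure_mono_null (image_mono hcov) ?_
  rw [image_union, image_iUnion]
  rw [measure_union_null_iff, measure_iUnion_null_iff]
  constructor
  · apply key_N R (measure_mono_null sdiff_subset hP)
    intro z hz
    rw [mem_sdiff] at hz
    exact hz.2
  · intro i
    apply key_B R (r := i)
    · apply measure_mono_null _ hP
      intro z hz
      rw [mem_ofPred_eq] at hz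
      exact hz.1
    · intro z hz
      rw [mem_ofPred_eq] at hz
      exact hz.2.1
    · intro z hz N
      rw [mem_ofPred_eq] at hz
      exact slots_bounded R hz.2.2 N

/-- the good points -/
def Good : Set ℝ := {z | z ∈ Fat ∧ z ∉ Bad R}

theorem mem_Good {z : ℝ} : z ∈ Good R ↔ z ∈ Fat ∧ z ∉ Bad R := by
  rw [Good, mem_ofPred_eq]

theorem isClosed_Good : IsClosed (Good R) := by
  have h : Good R = ⋂ i, {z | z ∈ Fat ∧ ¬ ∀ N, ∃ a ≥ N, R (pre (cd z) i) a = true} := by
    ext z
    rw [mem_Good, mem_Bad, mem_iInter]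
    constructor
    · rintro ⟨h1, h2⟩ i
      rw [mem_ofPred_eq]
      push Not at h2
      refine ⟨h1, ?_⟩
      push Not
      exact h2 i
    · intro h1
      have h2 := fun i => (mem_ofPred_eq ▸ h1 i :
        z ∈ Fat ∧ ¬ ∀ N, ∃ a ≥ N, R (pre (cd z) i) a = true)
      refine ⟨(h2 0).1, ?_⟩
      rintro ⟨i, hi⟩
      exact (h2 i).2 hi
  rw [h]
  exact isClosed_iInter (fun i =>
    isClosed_dep i (fun σ => ¬ ∀ N, ∃ a ≥ N, R σ a = true))

theorem isCompact_Good : IsCompact (Good R) :=
  isCompact_Fat.of_isClosed_subset (isClosed_Good R) (fun z hz => ((mem_Good R).1 hz).1)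

/-- stable slots -/
def Stab (k t₀ : ℕ) (v : List Bool) : Set ℝ :=
  {z | z ∈ Fat ∧ v.length = k ∧ ∀ t ≥ t₀, v <+: slots R (cd z) t}

theorem mem_Stab {k t₀ : ℕ} {v : List Bool} {z : ℝ} : z ∈ Stab R k t₀ v ↔
    z ∈ Fat ∧ v.length = k ∧ ∀ t ≥ t₀, v <+: slots R (cd z) t := by
  rw [Stab, mem_ofPred_eq]

theorem isClosed_Stab (k t₀ : ℕ) (v : List Bool) : IsClosed (Stab R k t₀ v) := by
  have h : Stab R k t₀ v = ⋂ t, {z | z ∈ Fat ∧ (v.length = k ∧ (t₀ ≤ t →
      v <+: slots R (ext (pre (cd z) (2 * t))) t))} := by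
    ext z
    rw [mem_Stab, mem_iInter]
    have hs : ∀ t, slots R (ext (pre (cd z) (2 * t))) t = slots R (cd z) t := by
      intro t
      symm
      apply (slots_congr R _).1
      intro j hj
      have := length_slots_le R (cd z) t
      exact (ext_pre (by omega)).symm
    constructor
    · rintro ⟨h1, h2, h3⟩ t
      rw [mem_ofPred_eq, hs]
      exact ⟨h1, h2, h3 t⟩
    · intro h1
      have h2 := fun t => (mem_ofPred_eq ▸ h1 t : z ∈ Fat ∧ (v.length = k ∧ (t₀ ≤ t →
        v <+: slots R (ext (pre (cd z) (2 * t))) t)))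
      refine ⟨(h2 0).1, (h2 0).2.1, fun t ht => ?_⟩
      rw [← hs t]
      exact (h2 t).2.2 ht
  rw [h]
  exact isClosed_iInter (fun t => isClosed_dep (2 * t)
    (fun σ => v.length = k ∧ (t₀ ≤ t → v <+: slots R (ext σ) t)))

theorem Stab_mono {k t₀ t₁ : ℕ} (h : t₀ ≤ t₁) (v : List Bool) :
    Stab R k t₀ v ⊆ Stab R k t₁ v := by
  intro z hz
  rw [mem_Stab] at hz ⊢
  exact ⟨hz.1, hz.2.1, fun t ht => hz.2.2 t (h.trans ht)⟩

/-- compact sets of good points on which the function is injective are null -/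
theorem inj_null {A : Set ℝ} (hA : IsCompact A) (hsub : A ⊆ Good R) (hinj : InjOn (ff R) A) :
    volume A = 0 := by
  -- the bound for every k
  have hbound : ∀ k t₀ : ℕ, volume (A ∩ ⋃ v, Stab R k t₀ v) * 2 ^ k ≤ 1 := by
    intro k t₀
    have hfin : {v : List Bool | v.length = k}.Finite := List.finite_length_eq Bool k
    have hEq : (A ∩ ⋃ v, Stab R k t₀ v) = ⋃ v ∈ hfin.toFinset, (A ∩ Stab R k t₀ v) := by
      ext z
      rw [mem_inter_iff, mem_iUnion, mem_iUnion₂]
      constructor
      · rintro ⟨h1, v, h2⟩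
        refine ⟨v, ?_, ?_⟩
        · rw [Set.Finite.mem_toFinset, mem_ofPred_eq]
          exact ((mem_Stab R).1 h2).2.1
        · rw [mem_inter_iff]
          exact ⟨h1, h2⟩
      · rintro ⟨v, h1, h2⟩
        rw [mem_inter_iff] at h2
        exact ⟨h2.1, v, h2.2⟩
    have hcpt : ∀ v, IsCompact (A ∩ Stab R k t₀ v) := fun v => hA.inter_right (isClosed_Stab R k t₀ v)
    have h1 : ∀ v ∈ hfin.toFinset, volume (A ∩ Stab R k t₀ v) * 2 ^ k ≤
        volume (ff R '' (A ∩ Stab R k t₀ v)) := by
      intro v hv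
      rw [Set.Finite.mem_toFinset, mem_ofPred_eq] at hv
      have h3 : A ∩ Stab R k t₀ v ⊆ Fat := by
        intro z hz
        rw [mem_inter_iff] at hz
        exact ((mem_Good R).1 (hsub hz.1)).1
      have h4 : ∀ z ∈ A ∩ Stab R k t₀ v, ∀ t ≥ t₀, v <+: slots R (cd z) t := by
        intro z hz
        rw [mem_inter_iff, mem_Stab] at hz
        exact hz.2.2.2
      have h5 := key_A R (hcpt v) h3 h4
      rw [hv] at h5
      exact h5
    have h2 : ∑ v ∈ hfin.toFinset, volume (ff R '' (A ∩ Stab R k t₀ v)) =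
        volume (⋃ v ∈ hfin.toFinset, ff R '' (A ∩ Stab R k t₀ v)) := by
      rw [measure_biUnion_finset]
      · intro v hv w hw hne
        rw [Function.onFun, Set.disjoint_left]
        intro y hy hy'
        rw [mem_image] at hy hy'
        obtain ⟨z, hz, rfl⟩ := hy
        obtain ⟨z', hz', hzz⟩ := hy'
        rw [mem_inter_iff, mem_Stab] at hz hz'
        have h3 := hinj hz'.1 hz.1 hzz
        subst h3
        apply hne
        have h4 := hz.2.2.2 t₀ le_rfl
        have h5 := hz'.2.2.2 t₀ le_rfl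
        rw [List.prefix_iff_eq_take] at h4 h5
        rw [h4, h5, hz.2.2.1, hz'.2.2.1]
      · intro v _
        exact ((hcpt v).image (ff_continuous R)).measurableSet
    calc volume (A ∩ ⋃ v, Stab R k t₀ v) * 2 ^ k
        ≤ (∑ v ∈ hfin.toFinset, volume (A ∩ Stab R k t₀ v)) * 2 ^ k := by
          rw [hEq]
          gcongr
          exact measure_biUnion_finset_le _ _
      _ = ∑ v ∈ hfin.toFinset, volume (A ∩ Stab R k t₀ v) * 2 ^ k := by rw [Finset.sum_mul]
      _ ≤ ∑ v ∈ hfin.toFinset, volume (ff R '' (A ∩ Stab R k t₀ v)) := Finset.sum_le_sum h1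
      _ = volume (⋃ v ∈ hfin.toFinset, ff R '' (A ∩ Stab R k t₀ v)) := h2
      _ ≤ volume (Icc (0 : ℝ) 1) := by
          apply measure_mono
          intro y hy
          rw [mem_iUnion₂] at hy
          obtain ⟨v, _, hy⟩ := hy
          rw [mem_image] at hy
          obtain ⟨z, -, rfl⟩ := hy
          rw [mem_Icc]
          exact ⟨ff_nonneg R z, ff_le_one R z⟩
      _ = 1 := by simp
  have hk : ∀ k : ℕ, volume A * 2 ^ k ≤ 1 := by
    intro k
    have hmono : Monotone (fun t₀ => A ∩ ⋃ v, Stab R k t₀ v) := by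
      intro t₀ t₁ h
      apply inter_subset_inter_right
      exact iUnion_mono (fun v => Stab_mono R h v)
    have hU : ⋃ t₀, (A ∩ ⋃ v, Stab R k t₀ v) = A := by
      ext z
      rw [mem_iUnion]
      constructor
      · rintro ⟨t₀, h⟩
        rw [mem_inter_iff] at h
        exact h.1
      · intro hz
        have h1 := (mem_Good R).1 (hsub hz)
        have h2 : ∀ i, ∃ N, ∀ a ≥ N, R (pre (cd z) i) a = false := by
          have h3 := h1.2
          rw [mem_Bad] at h3
          push Not at h3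
          intro i
          obtain ⟨N, hN⟩ := h3 i
          exact ⟨N, fun a ha => by simpa using hN a ha⟩
        obtain ⟨t₀, v, hv, hst⟩ := slots_stable R h2 k
        refine ⟨t₀, ?_⟩
        rw [mem_inter_iff, mem_iUnion]
        refine ⟨hz, v, ?_⟩
        rw [mem_Stab]
        exact ⟨h1.1, hv, hst⟩
    have hlim := tendsto_measure_iUnion_atTop (μ := (volume : Measure ℝ)) hmono
    rw [hU] at hlim
    have hlim2 := ENNReal.Tendsto.mul_const (b := 2 ^ k) hlim
      (Or.inr (ENNReal.pow_ne_top (by norm_num)))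
    exact le_of_tendsto' hlim2 (fun t₀ => hbound k t₀)
  by_contra hne
  have hfin : volume A ≠ ⊤ := hA.measure_ne_top
  have h1 : ∃ k : ℕ, 1 < volume A * 2 ^ k := by
    have hpos : 0 < (volume A).toReal := ENNReal.toReal_pos hne hfin
    obtain ⟨k, hk'⟩ := exists_nat_gt (1 / (volume A).toReal)
    refine ⟨k, ?_⟩
    have h2 : (1 : ℝ) < (volume A).toReal * 2 ^ k := by
      rw [div_lt_iff₀ hpos] at hk'
      have h3 : (k : ℝ) < 2 ^ k := by exact_mod_cast Nat.lt_two_pow_self
      nlinarith
    rw [← ENNReal.ofReal_toReal hfin]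
    have h5 : (2 : ENNReal) ^ k = ENNReal.ofReal (2 ^ k) := by
      rw [ENNReal.ofReal_pow (by norm_num)]
      norm_num
    rw [h5, ← ENNReal.ofReal_mul hpos.le, ← ENNReal.ofReal_one]
    exact (ENNReal.ofReal_lt_ofReal_iff (by positivity)).2 h2
  obtain ⟨k, hk'⟩ := h1
  exact absurd (hk k) (not_le.2 hk')

/-- failure of Luzin's property -/
theorem exists_null (hG : volume (Good R) ≠ 0) :
    ∃ K ⊆ Fat, volume K = 0 ∧ volume (ff R '' K) ≠ 0 := by
  have hc := isCompact_Good R
  let K : Set ℝ := {z | z ∈ Good R ∧ ∀ z' ∈ Good R, ff R z' = ff R z → z ≤ z'}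
  have hKdef : ∀ z, z ∈ K ↔ z ∈ Good R ∧ ∀ z' ∈ Good R, ff R z' = ff R z → z ≤ z' := by
    intro z
    rw [mem_ofPred_eq]
  clear_value K
  have hKmeas : MeasurableSet K := by
    have h : K = Good R \ ⋃ q : ℚ, (Ioi (q : ℝ) ∩ ff R ⁻¹' (ff R '' (Good R ∩ Iic (q : ℝ)))) := by
      ext z
      rw [hKdef, mem_sdiff, mem_iUnion]
      constructor
      · rintro ⟨h1, h2⟩
        refine ⟨h1, ?_⟩
        rintro ⟨q, hq⟩
        rw [mem_inter_iff, mem_Ioi, mem_preimage, mem_image] at hq
        obtain ⟨h3, z', h4, h5⟩ := hq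
        rw [mem_inter_iff, mem_Iic] at h4
        have := h2 z' h4.1 h5
        linarith [h4.2]
      · rintro ⟨h1, h2⟩
        refine ⟨h1, fun z' h3 h4 => ?_⟩
        by_contra h5
        push Not at h5
        obtain ⟨q, hq1, hq2⟩ := exists_rat_btwn h5
        apply h2
        refine ⟨q, ?_⟩
        rw [mem_inter_iff, mem_Ioi, mem_preimage, mem_image]
        refine ⟨hq2, z', ?_, h4⟩
        rw [mem_inter_iff, mem_Iic]
        exact ⟨h3, hq1.le⟩
    rw [h]
    apply (isClosed_Good R).measurableSet.diff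
    apply MeasurableSet.iUnion
    intro q
    apply measurableSet_Ioi.inter
    apply (ff_continuous R).measurable
    exact ((hc.inter_right isClosed_Iic).image (ff_continuous R)).measurableSet
  have hsubG : K ⊆ Good R := fun z hz => ((hKdef z).1 hz).1
  have hinj : InjOn (ff R) K := by
    intro z hz z' hz' h
    rw [hKdef] at hz hz'
    exact le_antisymm (hz.2 z' hz'.1 h.symm) (hz'.2 z hz.1 h)
  have himg : ff R '' K = ff R '' Good R := by
    apply subset_antisymm (image_mono hsubG)
    intro y hy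
    rw [mem_image] at hy
    obtain ⟨z, hz, rfl⟩ := hy
    have hc2 : IsCompact (Good R ∩ ff R ⁻¹' {ff R z}) :=
      hc.inter_right (isClosed_singleton.preimage (ff_continuous R))
    obtain ⟨w, hw⟩ := hc2.exists_isLeast ⟨z, by
      rw [mem_inter_iff, mem_preimage, mem_singleton_iff]
      exact ⟨hz, rfl⟩⟩
    obtain ⟨hw1, hw2⟩ := hw
    rw [mem_inter_iff, mem_preimage, mem_singleton_iff] at hw1
    rw [mem_image]
    refine ⟨w, ?_, hw1.2⟩
    rw [hKdef]
    refine ⟨hw1.1, fun z' h1 h2 => ?_⟩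
    apply hw2
    rw [mem_inter_iff, mem_preimage, mem_singleton_iff]
    exact ⟨h1, h2.trans hw1.2⟩
  refine ⟨K, fun z hz => ((mem_Good R).1 (hsubG hz)).1, ?_, ?_⟩
  · by_contra hne
    obtain ⟨A, hAK, hA, hApos⟩ := hKmeas.exists_lt_isCompact (pos_iff_ne_zero.2 hne)
    have := inj_null R hA (hAK.trans hsubG) (hinj.mono hAK)
    exact absurd this hApos.ne'
  · rw [himg]
    have h1 := key_A R hc (fun z hz => ((mem_Good R).1 hz).1) (t₀ := 0) (v := [])
      (fun z _ t _ => List.nil_prefix)
    simp only [List.length_nil, pow_zero, mul_one] at h1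
    intro h2
    rw [h2] at h1
    exact hG (le_antisymm h1 bot_le)

end Pool.Agent.H80.Luzin
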