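import Mathlib
import Pool.Agent.H80.Luzin.Main
import Pool.Agent.H80.Luzin.Classes

/-!
# The requirements
-/

namespace Pool.Agent.H80.Luzin

open MeasureTheory Set

/-- components of a code -/
def ce (T : ℕ) : ℕ := T.unpair.1
/-- components of a code -/
def ca (T : ℕ) : ℕ := T.unpair.2.unpair.1
/-- components of a code -/
def cb (T : ℕ) : ℕ := T.unpair.2.unpair.2.unpair.1
/-- components of a code -/
def cc (T : ℕ) : ℕ := T.unpair.2.unpair.2.unpair.2

/-- number of cells -/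
noncomputable def cnt (e a b c : ℕ) : ℕ := cntK (okk e a b) c

/-- the test -/
def QQ (T n k : ℕ) : Prop :=
  cnt (ce T) (ca T) n k * 2 ^ (ce T + 4) ≤ 2 ^ k ∧
  ∀ a' < ca T + 1, cnt (ce T) a' (cb T) (cc T) * 2 ^ (n + (ce T + cb T + 5)) ≤
    cnt (ce T) a' (cb T) n * 2 ^ (cc T + (ce T + cb T + 5)) + 2 ^ (cc T + n)

theorem Q1_iff {e a n k : ℕ} : cnt e a n k * 2 ^ (e + 4) ≤ 2 ^ k ↔
    volume (GK (okk e a n) k) ≤ ENNReal.ofReal ((1 / 2) ^ (e + 4)) := by
  rw [volume_GK, ENNReal.ofReal_le_ofReal_iff (by positivity), div_pow, one_pow,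
    div_le_div_iff₀ (by positivity) (by positivity), one_mul, cnt]
  constructor
  · intro h
    exact_mod_cast h
  · intro h
    exact_mod_cast h

theorem Q2_iff {e a b c n : ℕ} : cnt e a b c * 2 ^ (n + (e + b + 5)) ≤
    cnt e a b n * 2 ^ (c + (e + b + 5)) + 2 ^ (c + n) ↔
    volume (GK (okk e a b) c) ≤ volume (GK (okk e a b) n) +
      ENNReal.ofReal ((1 / 2) ^ (e + b + 5)) := by
  rw [volume_GK, volume_GK, ← ENNReal.ofReal_add (by positivity) (by positivity),
    ENNReal.ofReal_le_ofReal_iff (by positivity), div_pow, one_pow, cnt, cnt]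
  have h1 : (cntK (okk e a b) n : ℝ) / 2 ^ n + 1 / 2 ^ (e + b + 5) =
      (cntK (okk e a b) n * 2 ^ (c + (e + b + 5)) + 2 ^ (c + n)) / 2 ^ (c + n + (e + b + 5)) := by
    rw [pow_add (2 : ℝ) c (e + b + 5), pow_add (2 : ℝ) (c + n) (e + b + 5), pow_add (2 : ℝ) c n]
    have hD : (2 : ℝ) ^ (e + b + 5) ≠ 0 := by positivity
    generalize (2 : ℝ) ^ (e + b + 5) = D at hD ⊢
    field_simp
  have h2 : (cntK (okk e a b) c : ℝ) / 2 ^ c =
      (cntK (okk e a b) c * 2 ^ (n + (e + b + 5))) / 2 ^ (c + n + (e + b + 5)) := by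
    rw [pow_add (2 : ℝ) n (e + b + 5), pow_add (2 : ℝ) (c + n) (e + b + 5), pow_add (2 : ℝ) c n]
    field_simp
  rw [h1, h2, div_le_div_iff_of_pos_right (by positivity)]
  constructor
  · intro h
    exact_mod_cast h
  · intro h
    exact_mod_cast h

theorem QQ_iff {T n k : ℕ} : QQ T n k ↔
    volume (GK (okk (ce T) (ca T) n) k) ≤ ENNReal.ofReal ((1 / 2) ^ (ce T + 4)) ∧
    ∀ a' < ca T + 1, volume (GK (okk (ce T) a' (cb T)) (cc T)) ≤
      volume (GK (okk (ce T) a' (cb T)) n) + ENNReal.ofReal ((1 / 2) ^ (ce T + cb T + 5)) := by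
  rw [QQ, Q1_iff]
  simp_rw [Q2_iff]

theorem QQ_mono {T n k k' : ℕ} (h : k ≤ k') (hQ : QQ T n k) : QQ T n k' := by
  rw [QQ_iff] at hQ ⊢
  exact ⟨(measure_mono (GK_anti (okk_mono _ _ _) h)).trans hQ.1, hQ.2⟩

/-- the requirement is satisfied -/
def Sat (T : ℕ) : Prop := ∀ n, ∃ k, QQ T n k

open Classical in
/-- number of events before a stage -/
noncomputable def NT (T : ℕ) : ℕ → ℕ
  | 0 => 0
  | s + 1 => if QQ T (NT T s) s then NT T s + 1 else NT T s

/-- events -/
def ev (T s : ℕ) : Prop := QQ T (NT T s) s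

theorem NT_succ_of {T s : ℕ} (h : ev T s) : NT T (s + 1) = NT T s + 1 := by
  rw [NT, if_pos (show QQ T (NT T s) s from h)]

theorem NT_succ_of_not {T s : ℕ} (h : ¬ ev T s) : NT T (s + 1) = NT T s := by
  rw [NT, if_neg (show ¬ QQ T (NT T s) s from h)]

theorem sat_iff {T : ℕ} : Sat T ↔ ∀ N, ∃ s ≥ N, ev T s := by
  constructor
  · intro h N
    by_contra hcon
    push Not at hcon
    have h1 : ∀ k, NT T (N + k) = NT T N := by
      intro k
      induction k with
      | zero => rfl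
      | succ k ih => rw [← add_assoc, NT_succ_of_not (hcon _ (by omega)), ih]
    obtain ⟨k, hk⟩ := h (NT T N)
    apply hcon (N + k) (by omega)
    rw [ev, h1]
    exact QQ_mono (by omega) hk
  · intro h n
    have h1 : ∀ m, ∃ s, NT T s = m := by
      intro m
      induction m with
      | zero => exact ⟨0, rfl⟩
      | succ m ih =>
        classical
        obtain ⟨s, hs⟩ := ih
        have hex : ∃ k, ev T (s + k) := by
          obtain ⟨s', h2, h3⟩ := h s
          exact ⟨s' - s, by rwa [Nat.add_sub_cancel' h2]⟩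
        have h2 : ∀ k ≤ Nat.find hex, NT T (s + k) = m := by
          intro k
          induction k with
          | zero => intro _; exact hs
          | succ k ih2 =>
            intro hk
            rw [← add_assoc, NT_succ_of_not (Nat.find_min hex (by omega)), ih2 (by omega)]
        refine ⟨s + Nat.find hex + 1, ?_⟩
        rw [NT_succ_of (Nat.find_spec hex), h2 _ le_rfl]
    classical
    -- the last stage with value n is an event
    have h2 : ∃ s, NT T (s + 1) = n + 1 ∧ NT T s = n := by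
      have hex := h1 (n + 1)
      have h3 := Nat.find_spec hex
      cases hf : Nat.find hex with
      | zero =>
        rw [hf] at h3
        exact absurd h3 (by simp [NT])
      | succ s =>
        rw [hf] at h3
        refine ⟨s, h3, ?_⟩
        have h4 : NT T s ≠ n + 1 := Nat.find_min hex (by omega)
        by_cases h5 : ev T s
        · rw [NT_succ_of h5] at h3
          omega
        · rw [NT_succ_of_not h5] at h3
          exact absurd h3 h4
    obtain ⟨s, hs1, hs2⟩ := h2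
    have h5 : ev T s := by
      by_contra h5
      rw [NT_succ_of_not h5] at hs1
      omega
    rw [ev, hs2] at h5
    exact ⟨s, h5⟩

/-- the cell of a code containing an interval -/
def jj (σ : List Bool) (T : ℕ) : ℕ := nu σ * 2 ^ cc T / 2 ^ (2 * σ.length + 1)

/-- the interval is inside of a cell -/
def sub (σ : List Bool) (T : ℕ) : Prop :=
  okk (ce T) (ca T) (cb T) (cc T) (jj σ T) ∧
  (nu σ + 2 ^ σ.length + 1) * 2 ^ cc T < (jj σ T + 1) * 2 ^ (2 * σ.length + 1)

/-- the requirement -/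
def Rp (σ : List Bool) (s : ℕ) : Prop := ∃ T < σ.length + 1, ev T s ∧ sub σ T

open Classical in
/-- the requirement as a function -/
noncomputable def RR (σ : List Bool) (s : ℕ) : Bool := decide (Rp σ s)

open Classical in
theorem RR_iff {σ : List Bool} {s : ℕ} : RR σ s = true ↔ Rp σ s := by
  rw [RR, decide_eq_true_eq]

/-- the set of cells of a code -/
def GG (T : ℕ) : Set ℝ := GK (okk (ce T) (ca T) (cb T)) (cc T)

theorem J_nonneg {σ : List Bool} {z : ℝ} (hz : z ∈ J σ) : 0 ≤ z ∧ z ≤ 1 := by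
  have h := J_mono (List.nil_prefix (l := σ)) hz
  rw [J_nil, mem_Icc] at h
  exact h

theorem jj_eq {σ : List Bool} {T : ℕ} : jj σ T = ⌊lo σ * 2 ^ cc T⌋₊ := by
  have h := Nat.floor_div_eq_div (K := ℝ) (nu σ * 2 ^ cc T) (2 ^ (2 * σ.length + 1))
  rw [jj, ← h, lo]
  congr 1
  push_cast
  ring

theorem sub_sound {σ : List Bool} {T : ℕ} (h : sub σ T) : J σ ⊆ GG T := by
  intro z hz
  have hz0 := (J_nonneg hz).1
  rw [mem_J] at hz
  obtain ⟨h1, h2⟩ := h
  have hlo : 0 ≤ lo σ := by rw [lo]; positivity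
  have h3 : hi σ < (jj σ T + 1) / 2 ^ cc T := by
    rw [hi, div_lt_div_iff₀ (by positivity) (by positivity)]
    exact_mod_cast h2
  have h4 : ((jj σ T : ℕ) : ℝ) / 2 ^ cc T ≤ lo σ := by
    rw [jj_eq, div_le_iff₀ (by positivity)]
    exact Nat.floor_le (by positivity)
  have h5 : ⌊z * 2 ^ cc T⌋₊ = jj σ T := by
    rw [floor_eq hz0, mem_Ico]
    exact ⟨h4.trans hz.1, lt_of_le_of_lt hz.2 h3⟩
  rw [GG, mem_GK, h5]
  refine ⟨hz0, ?_, h1⟩
  have h6 : lo σ < 1 := by
    have h7 := (J_nonneg (mem_J.2 ⟨lo_le_hi σ, le_rfl⟩)).2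
    have h8 := le_len σ
    have h9 : (0 : ℝ) < (1 / 2) ^ (σ.length + 1) := by positivity
    linarith
  rw [jj_eq, Nat.floor_lt (by positivity)]
  push_cast
  have h7 : (0 : ℝ) < 2 ^ cc T := by positivity
  nlinarith

/-- a bad point of the fat Cantor set lies in the set of a satisfied code -/
theorem bad_sound {z : ℝ} (hz : z ∈ Fat) (hb : z ∈ Bad RR) : ∃ T, Sat T ∧ z ∈ GG T := by
  rw [mem_Bad] at hb
  obtain ⟨i, hi⟩ := hb
  by_contra hcon
  push Not at hcon
  have h1 : ∀ B, ∃ N, ∀ T < B, ∀ s ≥ N, ¬ (ev T s ∧ sub (pre (cd z) i) T) := by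
    intro B
    induction B with
    | zero => exact ⟨0, fun T hT => absurd hT (by omega)⟩
    | succ B ih =>
      obtain ⟨N, hN⟩ := ih
      have h2 : ∃ N', ∀ s ≥ N', ¬ (ev B s ∧ sub (pre (cd z) i) B) := by
        by_cases h3 : sub (pre (cd z) i) B
        · have h4 : ¬ Sat B := fun h5 => hcon B h5 (sub_sound h3 (mem_Fat.1 hz i))
          rw [sat_iff] at h4
          push Not at h4
          obtain ⟨N', hN'⟩ := h4
          exact ⟨N', fun s hs h6 => hN' s hs h6.1⟩
        · exact ⟨0, fun s _ h4 => h3 h4.2⟩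
      obtain ⟨N', hN'⟩ := h2
      refine ⟨max N N', fun T hT s hs => ?_⟩
      rcases Nat.lt_or_ge T B with h3 | h3
      · exact hN T h3 s (le_trans (le_max_left _ _) hs)
      · obtain rfl : T = B := by omega
        exact hN' s (le_trans (le_max_right _ _) hs)
  obtain ⟨N, hN⟩ := h1 ((pre (cd z) i).length + 1)
  obtain ⟨s, hs, hR⟩ := hi N
  rw [RR_iff] at hR
  obtain ⟨T, hT, h2⟩ := hR
  exact hN T hT s hs h2

theorem bad_complete {z : ℝ} (hz : z ∈ Fat) (hnd : ∀ i c : ℕ, z ≠ (i : ℝ) / 2 ^ c) {T : ℕ}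
    (hT : Sat T) (hG : z ∈ GG T) : z ∈ Bad RR := by
  rw [GG, mem_GK] at hG
  obtain ⟨hz0, h1, h2⟩ := hG
  have h3 := (floor_eq (c := cc T) (i := ⌊z * 2 ^ cc T⌋₊) hz0).1 rfl
  rw [mem_Ico] at h3
  have h4 : ((⌊z * 2 ^ cc T⌋₊ : ℕ) : ℝ) / 2 ^ cc T < z :=
    lt_of_le_of_ne h3.1 (Ne.symm (hnd _ _))
  obtain ⟨m, hm⟩ := exists_pow_lt_of_lt_one (x := min (z - (⌊z * 2 ^ cc T⌋₊ : ℕ) / 2 ^ cc T)
    (((⌊z * 2 ^ cc T⌋₊ : ℕ) + 1) / 2 ^ cc T - z)) (lt_min (by linarith) (by linarith [h3.2]))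
    (by norm_num : (1 : ℝ) / 2 < 1)
  rw [lt_min_iff] at hm
  have hlen : (pre (cd z) (max m T)).length = max m T := length_pre _ _
  have h5 : (1 / 2 : ℝ) ^ (max m T) ≤ (1 / 2) ^ m :=
    pow_le_pow_of_le_one (by norm_num) (by norm_num) (le_max_left _ _)
  have h6 := mem_J.1 (mem_Fat.1 hz (max m T))
  have h7 := len_le (pre (cd z) (max m T))
  rw [hlen] at h7
  have hlo0 : 0 ≤ lo (pre (cd z) (max m T)) := by rw [lo]; positivity
  have h8 : jj (pre (cd z) (max m T)) T = ⌊z * 2 ^ cc T⌋₊ := by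
    rw [jj_eq, floor_eq hlo0, mem_Ico]
    constructor <;> linarith [h6.1, h6.2, hm.1, hm.2, h3.1, h3.2]
  have h9 : sub (pre (cd z) (max m T)) T := by
    constructor
    · rw [h8]
      exact h2
    · rw [h8]
      have h10 : hi (pre (cd z) (max m T)) < ((⌊z * 2 ^ cc T⌋₊ : ℕ) + 1) / 2 ^ cc T := by
        linarith [h6.1, h6.2, hm.1, hm.2]
      rw [hi, div_lt_div_iff₀ (by positivity) (by positivity)] at h10
      exact_mod_cast h10
  rw [mem_Bad]
  refine ⟨max m T, fun N => ?_⟩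
  obtain ⟨s, hs, hev⟩ := sat_iff.1 hT N
  refine ⟨s, hs, ?_⟩
  rw [RR_iff]
  exact ⟨T, by rw [hlen]; have := le_max_right m T; omega, hev, h9⟩

/-! ### Measure -/

theorem geom_ENN (e : ℕ) : ∑' b : ℕ, ENNReal.ofReal ((1 / 2) ^ (e + b + 1)) =
    ENNReal.ofReal ((1 / 2) ^ e) := by
  have h2 : Summable (fun b : ℕ => ((1 : ℝ) / 2) ^ (b + e + 1)) := by
    have : Summable (fun t : ℕ => ((1 : ℝ) / 2) ^ (t + (e + 1))) :=
      (summable_nat_add_iff (f := fun t : ℕ => ((1 : ℝ) / 2) ^ t) (e + 1)).2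
        (summable_geometric_of_lt_one (by norm_num) (by norm_num))
    simpa [add_assoc] using this
  have h1 := tsum_pow_aux e
  rw [← h1, ENNReal.ofReal_tsum_of_nonneg (fun b => by positivity) h2]
  apply tsum_congr
  intro b
  rw [add_comm e b]

/-- the cover of the classes with code `e` is small -/
theorem cover_small (e : ℕ) : volume (⋃ T ∈ {T | Sat T ∧ ce T = e}, GG T) ≤
    ENNReal.ofReal ((1 / 2) ^ (e + 3)) := by
  classical
  by_cases hex : ∃ a, ∃ T, Sat T ∧ ce T = e ∧ ca T = a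
  · obtain ⟨T₀, hT₀, heT₀, haT₀⟩ := Nat.find_spec hex
    have hmin : ∀ T, Sat T → ce T = e → Nat.find hex ≤ ca T := fun T h1 h2 =>
      Nat.find_min' hex ⟨T, h1, h2, rfl⟩
    generalize Nat.find hex = a₀ at haT₀ hmin
    -- the set W b
    have hdecomp : ⋃ T ∈ {T | Sat T ∧ ce T = e}, GG T ⊆
        EE e a₀ ∪ ⋃ b, ((⋃ c ∈ {c | ∀ n, volume (GK (okk e a₀ b) c) ≤
          volume (GK (okk e a₀ b) n) + ENNReal.ofReal ((1 / 2) ^ (e + b + 5))},
            GK (okk e a₀ b) c) \ LK (okk e a₀ b)) := by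
      intro z hz
      rw [mem_iUnion₂] at hz
      obtain ⟨T, hT, hz⟩ := hz
      rw [mem_ofPred_eq] at hT
      obtain ⟨hT, heT⟩ := hT
      have ha := hmin T hT heT
      rw [GG, heT] at hz
      have hz2 : z ∈ GK (okk e a₀ (cb T)) (cc T) := by
        rw [mem_GK] at hz ⊢
        exact ⟨hz.1, hz.2.1, fun a' ha' => hz.2.2 a' (by omega)⟩
      rw [mem_union]
      by_cases h1 : z ∈ LK (okk e a₀ (cb T))
      · left
        rw [mem_EE]
        exact ⟨_, h1⟩
      · right
        rw [mem_iUnion]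
        refine ⟨cb T, ?_⟩
        rw [mem_sdiff, mem_iUnion₂]
        refine ⟨⟨cc T, ?_, hz2⟩, h1⟩
        rw [mem_ofPred_eq]
        intro n
        obtain ⟨k, hk⟩ := hT n
        rw [QQ_iff, heT] at hk
        exact hk.2 a₀ (by omega)
    have hEE : volume (EE e a₀) ≤ ENNReal.ofReal ((1 / 2) ^ (e + 4)) := by
      have hmono : Monotone (fun b => LK (okk e a₀ b)) := fun b b' h => LK_okk_mono h
      rw [EE, hmono.measure_iUnion]
      apply iSup_le
      intro b
      obtain ⟨k, hk⟩ := hT₀ b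
      rw [QQ_iff, heT₀, haT₀] at hk
      exact (measure_mono (LK_subset _ k)).trans hk.1
    have hW : ∀ b, volume ((⋃ c ∈ {c | ∀ n, volume (GK (okk e a₀ b) c) ≤
          volume (GK (okk e a₀ b) n) + ENNReal.ofReal ((1 / 2) ^ (e + b + 5))},
            GK (okk e a₀ b) c) \ LK (okk e a₀ b)) ≤ ENNReal.ofReal ((1 / 2) ^ (e + b + 5)) := by
      intro b
      by_cases hex2 : ∃ c, ∀ n, volume (GK (okk e a₀ b) c) ≤
          volume (GK (okk e a₀ b) n) + ENNReal.ofReal ((1 / 2) ^ (e + b + 5))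
      · obtain ⟨c₀, h1, h2⟩ : ∃ c₀, (∀ n, volume (GK (okk e a₀ b) c₀) ≤
            volume (GK (okk e a₀ b) n) + ENNReal.ofReal ((1 / 2) ^ (e + b + 5))) ∧
            (⋃ c ∈ {c | ∀ n, volume (GK (okk e a₀ b) c) ≤
            volume (GK (okk e a₀ b) n) + ENNReal.ofReal ((1 / 2) ^ (e + b + 5))},
            GK (okk e a₀ b) c) ⊆ GK (okk e a₀ b) c₀ := by
          refine ⟨Nat.find hex2, Nat.find_spec hex2, ?_⟩
          intro z hz
          rw [mem_iUnion₂] at hz
          obtain ⟨c, hc, hz⟩ := hz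
          rw [mem_ofPred_eq] at hc
          exact GK_anti (okk_mono _ _ _) (Nat.find_min' hex2 hc) hz
        refine (measure_mono (sdiff_subset_sdiff_left h2)).trans ?_
        rw [measure_sdiff (LK_subset _ _) (measurableSet_LK _).nullMeasurableSet
          (ne_of_lt (lt_of_le_of_lt (measure_mono (LK_subset _ 0))
            (lt_top_iff_ne_top.2 (volume_GK_ne_top _ _)))), tsub_le_iff_right,
          volume_LK (okk_mono _ _ _), add_comm, ENNReal.iInf_add]
        exact le_iInf h1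
      · have h2 : (⋃ c ∈ {c | ∀ n, volume (GK (okk e a₀ b) c) ≤
          volume (GK (okk e a₀ b) n) + ENNReal.ofReal ((1 / 2) ^ (e + b + 5))},
            GK (okk e a₀ b) c) \ LK (okk e a₀ b) ⊆ ∅ := by
          intro z hz
          rw [mem_sdiff, mem_iUnion₂] at hz
          obtain ⟨⟨c, hc, -⟩, -⟩ := hz
          rw [mem_ofPred_eq] at hc
          exact absurd ⟨c, hc⟩ hex2
        refine (measure_mono h2).trans ?_
        simp
    refine (measure_mono hdecomp).trans ((measure_union_le _ _).trans ?_)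
    have h3 : ∑' b : ℕ, ENNReal.ofReal (((1 : ℝ) / 2) ^ (e + b + 5)) =
        ENNReal.ofReal ((1 / 2) ^ (e + 4)) := by
      rw [← geom_ENN (e + 4)]
      apply tsum_congr
      intro b
      congr 2
      omega
    refine (add_le_add hEE ((measure_iUnion_le _).trans ((ENNReal.tsum_le_tsum hW).trans
      h3.le))).trans ?_
    rw [← ENNReal.ofReal_add (by positivity) (by positivity)]
    apply ENNReal.ofReal_le_ofReal
    rw [pow_succ (1 / 2 : ℝ) (e + 3)]
    linarith
  · have h1 : ⋃ T ∈ {T | Sat T ∧ ce T = e}, GG T ⊆ ∅ := by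
      intro z hz
      rw [mem_iUnion₂] at hz
      obtain ⟨T, hT, -⟩ := hz
      rw [mem_ofPred_eq] at hT
      exact absurd ⟨ca T, T, hT.1, hT.2, rfl⟩ hex
    refine (measure_mono h1).trans ?_
    simp

theorem good_pos : volume (Good RR) ≠ 0 := by
  have h1 : Fat ⊆ Good RR ∪ ⋃ e, ⋃ T ∈ {T | Sat T ∧ ce T = e}, GG T := by
    intro z hz
    rw [mem_union]
    by_cases hb : z ∈ Bad RR
    · right
      obtain ⟨T, hT, hz'⟩ := bad_sound hz hb
      rw [mem_iUnion]
      refine ⟨ce T, ?_⟩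
      rw [mem_iUnion₂]
      refine ⟨T, ?_, hz'⟩
      rw [mem_ofPred_eq]
      exact ⟨hT, rfl⟩
    · left
      rw [mem_Good]
      exact ⟨hz, hb⟩
  intro h0
  have h2 : volume Fat ≤ 0 + ENNReal.ofReal (1 / 4) := by
    refine (measure_mono h1).trans ((measure_union_le _ _).trans (add_le_add h0.le ?_))
    refine (measure_iUnion_le _).trans ((ENNReal.tsum_le_tsum cover_small).trans ?_)
    have h3 := geom_ENN 2
    have h4 : ∑' b : ℕ, ENNReal.ofReal (((1 : ℝ) / 2) ^ (b + 3)) =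
        ENNReal.ofReal ((1 / 2) ^ 2) := by
      rw [← h3]
      apply tsum_congr
      intro b
      congr 2
      omega
    rw [h4]
    norm_num
  rw [zero_add] at h2
  have h3 := volume_Fat.trans h2
  rw [ENNReal.ofReal_le_ofReal_iff (by norm_num)] at h3
  norm_num at h3

/-- null classes are covered -/
theorem class_bad {g : ℕ × ℕ × ℕ → ℕ × ℕ × ℕ} (hg : Computable g)
    (hnull : volume (Pi03Class g) = 0) {z : ℝ} (hz : z ∈ Pi03Class g) (hF : z ∈ Fat)
    (hnd : ∀ i c : ℕ, z ≠ (i : ℝ) / 2 ^ c) : z ∈ Bad RR := by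
  obtain ⟨e, he⟩ := exists_codeOf hg
  have hz1 : z < 1 := by
    have h1 := (mem_Icc.1 (mem_Pi03Class.1 hz).1).2
    have h2 := hnd 1 0
    norm_num at h2
    exact lt_of_le_of_ne h1 h2
  obtain ⟨a, ha⟩ := exists_small he hnull (ε := ENNReal.ofReal ((1 / 2) ^ (e + 4)))
    (ENNReal.ofReal_pos.2 (by positivity))
  obtain ⟨b, hb⟩ := mem_EE.1 (mem_EE_of he hz hz1 a)
  -- the stage c
  have hc : ∃ c, ∀ a' < a + 1, ∀ n, volume (GK (okk e a' b) c) ≤
      volume (GK (okk e a' b) n) + ENNReal.ofReal ((1 / 2) ^ (e + b + 5)) := by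
    have h1 : ∀ a', ∃ c, ∀ c' ≥ c, ∀ n, volume (GK (okk e a' b) c') ≤
        volume (GK (okk e a' b) n) + ENNReal.ofReal ((1 / 2) ^ (e + b + 5)) := by
      intro a'
      have hpos : (0 : ENNReal) < ENNReal.ofReal ((1 / 2) ^ (e + b + 5)) :=
        ENNReal.ofReal_pos.2 (by positivity)
      have hfin : ⨅ c, volume (GK (okk e a' b) c) ≠ ⊤ := by
        apply ne_of_lt
        exact lt_of_le_of_lt (iInf_le _ 0) (lt_top_iff_ne_top.2 (volume_GK_ne_top _ _))
      have h2 : ⨅ c, volume (GK (okk e a' b) c) < (⨅ c, volume (GK (okk e a' b) c)) +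
          ENNReal.ofReal ((1 / 2) ^ (e + b + 5)) := ENNReal.lt_add_right hfin hpos.ne'
      obtain ⟨c, hc⟩ := iInf_lt_iff.1 h2
      refine ⟨c, fun c' hc' n => ?_⟩
      refine (measure_mono (GK_anti (okk_mono _ _ _) hc')).trans (hc.le.trans ?_)
      gcongr
      exact iInf_le _ n
    have h2 : ∀ A, ∃ c, ∀ a' < A, ∀ c' ≥ c, ∀ n, volume (GK (okk e a' b) c') ≤
        volume (GK (okk e a' b) n) + ENNReal.ofReal ((1 / 2) ^ (e + b + 5)) := by
      intro A
      induction A with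
      | zero => exact ⟨0, fun a' ha' => absurd ha' (by omega)⟩
      | succ A ih =>
        obtain ⟨c, hc⟩ := ih
        obtain ⟨c₂, hc₂⟩ := h1 A
        refine ⟨max c c₂, fun a' ha' c' hc' => ?_⟩
        rcases Nat.lt_or_ge a' A with h3 | h3
        · exact hc a' h3 c' (le_trans (le_max_left _ _) hc')
        · obtain rfl : a' = A := by omega
          exact hc₂ c' (le_trans (le_max_right _ _) hc')
    obtain ⟨c, hc⟩ := h2 (a + 1)
    exact ⟨c, fun a' ha' => hc a' ha' c le_rfl⟩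
  obtain ⟨c, hc⟩ := hc
  have hTe : ce (Nat.pair e (Nat.pair a (Nat.pair b c))) = e := by simp [ce]
  have hTa : ca (Nat.pair e (Nat.pair a (Nat.pair b c))) = a := by simp [ca]
  have hTb : cb (Nat.pair e (Nat.pair a (Nat.pair b c))) = b := by simp [cb]
  have hTc : cc (Nat.pair e (Nat.pair a (Nat.pair b c))) = c := by simp [cc]
  generalize Nat.pair e (Nat.pair a (Nat.pair b c)) = T at hTe hTa hTb hTc
  apply bad_complete hF hnd (T := T)
  · intro n
    have h1 : ⨅ k, volume (GK (okk e a n) k) < ENNReal.ofReal ((1 / 2) ^ (e + 4)) := by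
      rw [← volume_LK (okk_mono _ _ _)]
      refine lt_of_le_of_lt (measure_mono ?_) ha
      intro w hw
      rw [mem_EE]
      exact ⟨n, hw⟩
    obtain ⟨k, hk⟩ := iInf_lt_iff.1 h1
    refine ⟨k, ?_⟩
    rw [QQ_iff, hTe, hTa, hTb, hTc]
    exact ⟨hk.le, fun a' ha' => hc a' ha' n⟩
  · rw [GG, hTe, hTa, hTb, hTc]
    rw [mem_LK] at hb
    exact hb c

end Pool.Agent.H80.Luzin
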