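import Mathlib
import Pool.Agent.H80.Luzin.Cover

/-!
# Computability
-/

namespace Pool.Agent.H80.Luzin

open Nat.Partrec (Code)

section general

variable {α : Type*} [Primcodable α]

theorem ex_lt {f : α → ℕ} {p : α → ℕ → Prop} (hf : Primrec f) (hp : PrimrecRel p) :
    PrimrecPred (fun a => ∃ x < f a, p a x) := by
  have h1 : PrimrecRel (fun (x : ℕ) (a : α) => p a x) := hp.comp Primrec.snd Primrec.fst
  have h2 := PrimrecRel.comp h1.exists_mem_list (Primrec.list_range.comp hf) Primrec.id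
  exact h2.of_eq (fun a => by simp)

theorem all_lt {f : α → ℕ} {p : α → ℕ → Prop} (hf : Primrec f) (hp : PrimrecRel p) :
    PrimrecPred (fun a => ∀ x < f a, p a x) := by
  have h1 : PrimrecRel (fun (x : ℕ) (a : α) => p a x) := hp.comp Primrec.snd Primrec.fst
  have h2 := PrimrecRel.comp h1.forall_mem_list (Primrec.list_range.comp hf) Primrec.id
  exact h2.of_eq (fun a => by simp)

theorem pow2 {f : α → ℕ} (hf : Primrec f) : Primrec (fun a => 2 ^ f a) := by
  have h : Primrec₂ ((· ^ ·) : ℕ → ℕ → ℕ) := Primrec₂.unpaired'.1 Nat.Primrec.pow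
  exact h.comp (Primrec.const 2) hf

theorem p_add {f g : α → ℕ} (hf : Primrec f) (hg : Primrec g) : Primrec (fun a => f a + g a) :=
  Primrec.nat_add.comp hf hg

theorem p_mul {f g : α → ℕ} (hf : Primrec f) (hg : Primrec g) : Primrec (fun a => f a * g a) :=
  Primrec.nat_mul.comp hf hg

theorem p_sub {f g : α → ℕ} (hf : Primrec f) (hg : Primrec g) : Primrec (fun a => f a - g a) :=
  Primrec.nat_sub.comp hf hg

theorem p_div {f g : α → ℕ} (hf : Primrec f) (hg : Primrec g) : Primrec (fun a => f a / g a) :=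
  Primrec.nat_div.comp hf hg

theorem p_lt {f g : α → ℕ} (hf : Primrec f) (hg : Primrec g) : PrimrecPred (fun a => f a < g a) :=
  Primrec.nat_lt.comp hf hg

theorem p_le {f g : α → ℕ} (hf : Primrec f) (hg : Primrec g) : PrimrecPred (fun a => f a ≤ g a) :=
  Primrec.nat_le.comp hf hg

theorem p_pair {f g : α → ℕ} (hf : Primrec f) (hg : Primrec g) :
    Primrec (fun a => Nat.pair (f a) (g a)) :=
  Primrec₂.natPair.comp hf hg

theorem p_u1 {f : α → ℕ} (hf : Primrec f) : Primrec (fun a => (f a).unpair.1) :=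
  Primrec.fst.comp (Primrec.unpair.comp hf)

theorem p_u2 {f : α → ℕ} (hf : Primrec f) : Primrec (fun a => (f a).unpair.2) :=
  Primrec.snd.comp (Primrec.unpair.comp hf)

theorem p_c (n : ℕ) : Primrec (fun _ : α => n) := Primrec.const n

theorem inB_prim {c i v : α → ℕ} (hc : Primrec c) (hi : Primrec i) (hv : Primrec v) :
    PrimrecPred (fun x => inB (c x) (i x) (v x)) := by
  have h1 : Primrec (fun x => (dec (v x)).1) := p_u1 hv
  have h2 : Primrec (fun x => (dec (v x)).2.1) := p_u1 (p_u2 hv)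
  have h3 : Primrec (fun x => (dec (v x)).2.2) := p_u2 (p_u2 hv)
  have h4 := p_lt (p_mul h1 (pow2 hc)) (p_add (p_mul hi (pow2 h3)) (p_mul h2 (pow2 hc)))
  have h5 := p_lt (p_mul (p_add hi (p_c 1)) (pow2 h3)) (p_mul (p_add h1 h2) (pow2 hc))
  exact h4.and h5

theorem bl_prim {e a b c' c i : α → ℕ} (he : Primrec e) (ha : Primrec a) (hb : Primrec b)
    (hc' : Primrec c') (hc : Primrec c) (hi : Primrec i) :
    Primrec (fun x => bl (e x) (a x) (b x) (c' x) (c x) (i x)) := by
  have h1 : Primrec (fun x => Code.evaln (c x) (Denumerable.ofNat Code (e x))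
      (Nat.pair (a x) (Nat.pair (b x) (c' x)))) :=
    Code.primrec_evaln.comp (Primrec.pair (Primrec.pair hc ((Primrec.ofNat Code).comp he))
      (p_pair ha (p_pair hb hc')))
  have h2 : Primrec₂ (fun (x : α) (v : ℕ) => decide (inB (c x) (i x) v)) :=
    (inB_prim (hc.comp Primrec.fst) (hi.comp Primrec.fst) Primrec.snd).decide
  exact Primrec.option_getD.comp (Primrec.option_map h1 h2) (Primrec.const false)

theorem okr_prim {e a b c i : α → ℕ} (he : Primrec e) (ha : Primrec a) (hb : Primrec b)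
    (hc : Primrec c) (hi : Primrec i) :
    PrimrecPred (fun x => okr (e x) (a x) (b x) (c x) (i x)) := by
  apply all_lt (f := fun x => c x + 1)
    (p := fun x c' => bl (e x) (a x) (b x) c' (c x) (i x) = false) (p_add hc (p_c 1))
  exact Primrec.eq.comp (bl_prim (he.comp Primrec.fst) (ha.comp Primrec.fst)
    (hb.comp Primrec.fst) Primrec.snd (hc.comp Primrec.fst) (hi.comp Primrec.fst))
    (Primrec.const false)

theorem okk_prim {e a b c i : α → ℕ} (he : Primrec e) (ha : Primrec a) (hb : Primrec b)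
    (hc : Primrec c) (hi : Primrec i) :
    PrimrecPred (fun x => okk (e x) (a x) (b x) (c x) (i x)) := by
  apply all_lt (f := fun x => a x + 1)
    (p := fun x a' => ∃ b' < b x + 1, okr (e x) a' b' (c x) (i x)) (p_add ha (p_c 1))
  apply ex_lt (f := fun y : α × ℕ => b y.1 + 1)
    (p := fun (y : α × ℕ) b' => okr (e y.1) y.2 b' (c y.1) (i y.1))
    (p_add (hb.comp Primrec.fst) (p_c 1))
  exact okr_prim (he.comp (Primrec.fst.comp Primrec.fst)) (Primrec.snd.comp Primrec.fst)
    Primrec.snd (hc.comp (Primrec.fst.comp Primrec.fst)) (hi.comp (Primrec.fst.comp Primrec.fst))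

open Classical in
theorem cnt_eq (e a b c : ℕ) :
    cnt e a b c = ((List.range (2 ^ c)).filter (fun i => decide (okk e a b c i))).length := rfl

theorem cnt_prim {e a b c : α → ℕ} (he : Primrec e) (ha : Primrec a) (hb : Primrec b)
    (hc : Primrec c) : Primrec (fun x => cnt (e x) (a x) (b x) (c x)) := by
  classical
  have h1 : PrimrecRel (fun (i : ℕ) (x : α) => okk (e x) (a x) (b x) (c x) i) :=
    okk_prim (he.comp Primrec.snd) (ha.comp Primrec.snd) (hb.comp Primrec.snd)
      (hc.comp Primrec.snd) Primrec.fst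
  have h2 := Primrec.list_length.comp
    (h1.listFilter.comp (Primrec.list_range.comp (pow2 hc)) Primrec.id)
  refine h2.of_eq (fun x => ?_)
  rw [cnt_eq]
  congr

theorem QQ_prim {T n k : α → ℕ} (hT : Primrec T) (hn : Primrec n) (hk : Primrec k) :
    PrimrecPred (fun x => QQ (T x) (n x) (k x)) := by
  have he : Primrec (fun x => ce (T x)) := p_u1 hT
  have ha : Primrec (fun x => ca (T x)) := p_u1 (p_u2 hT)
  have hb : Primrec (fun x => cb (T x)) := p_u1 (p_u2 (p_u2 hT))
  have hc : Primrec (fun x => cc (T x)) := p_u2 (p_u2 (p_u2 hT))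
  have h1 := p_le (p_mul (cnt_prim he ha hn hk) (pow2 (p_add he (p_c 4)))) (pow2 hk)
  refine h1.and ?_
  apply all_lt (f := fun x => ca (T x) + 1) (p := fun x a' =>
    cnt (ce (T x)) a' (cb (T x)) (cc (T x)) * 2 ^ (n x + (ce (T x) + cb (T x) + 5)) ≤
    cnt (ce (T x)) a' (cb (T x)) (n x) * 2 ^ (cc (T x) + (ce (T x) + cb (T x) + 5)) +
      2 ^ (cc (T x) + n x)) (p_add ha (p_c 1))
  have he' := he.comp (Primrec.fst (α := α) (β := ℕ))
  have hb' := hb.comp (Primrec.fst (α := α) (β := ℕ))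
  have hc' := hc.comp (Primrec.fst (α := α) (β := ℕ))
  have hn' := hn.comp (Primrec.fst (α := α) (β := ℕ))
  exact p_le (p_mul (cnt_prim he' Primrec.snd hb' hc')
    (pow2 (p_add hn' (p_add (p_add he' hb') (p_c 5)))))
    (p_add (p_mul (cnt_prim he' Primrec.snd hb' hn')
    (pow2 (p_add hc' (p_add (p_add he' hb') (p_c 5))))) (pow2 (p_add hc' hn')))

open Classical in
theorem NT_eq (T s : ℕ) : NT T s = Nat.rec 0 (fun s v => if QQ T v s then v + 1 else v) s := by
  induction s with
  | zero => rfl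
  | succ s ih => rw [NT, ih]

theorem NT_prim {T s : α → ℕ} (hT : Primrec T) (hs : Primrec s) :
    Primrec (fun x => NT (T x) (s x)) := by
  classical
  have h1 : Primrec₂ (fun (x : α) (p : ℕ × ℕ) => if QQ (T x) p.2 p.1 then p.2 + 1 else p.2) := by
    have h2 : Primrec (fun y : α × (ℕ × ℕ) => y.2.2) := Primrec.snd.comp Primrec.snd
    have h3 : Primrec (fun y : α × (ℕ × ℕ) => y.2.1) := Primrec.fst.comp Primrec.snd
    exact Primrec.ite (QQ_prim (hT.comp Primrec.fst) h2 h3) (p_add h2 (p_c 1)) h2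
  have h4 : Primrec₂ (fun (x : α) (n : ℕ) =>
      (Nat.rec 0 (fun s v => if QQ (T x) v s then v + 1 else v) n : ℕ)) :=
    Primrec.nat_rec (Primrec.const 0) h1
  refine (h4.comp Primrec.id hs).of_eq (fun x => ?_)
  rw [NT_eq]
  rfl

theorem ev_prim {T s : α → ℕ} (hT : Primrec T) (hs : Primrec s) :
    PrimrecPred (fun x => ev (T x) (s x)) :=
  QQ_prim hT (NT_prim hT hs) hs

theorem st_prim {σ : α → List Bool} (hσ : Primrec σ) : Primrec (fun x => st (σ x)) := by
  have h1 : Primrec₂ (fun (_ : α) (y : (ℕ × ℕ) × Bool) =>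
      (4 * y.1.1 + (if y.2 = true then 2 * y.1.2 + 3 else 0), 2 * y.1.2)) := by
    have h2 : Primrec (fun y : α × ((ℕ × ℕ) × Bool) => y.2.1.1) :=
      Primrec.fst.comp (Primrec.fst.comp Primrec.snd)
    have h3 : Primrec (fun y : α × ((ℕ × ℕ) × Bool) => y.2.1.2) :=
      Primrec.snd.comp (Primrec.fst.comp Primrec.snd)
    have h4 : Primrec (fun y : α × ((ℕ × ℕ) × Bool) => y.2.2) :=
      Primrec.snd.comp Primrec.snd
    exact Primrec.pair (p_add (p_mul (p_c 4) h2)
      (Primrec.ite (Primrec.eq.comp h4 (Primrec.const true))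
        (p_add (p_mul (p_c 2) h3) (p_c 3)) (p_c 0))) (p_mul (p_c 2) h3)
  exact Primrec.list_foldl hσ (Primrec.const (0, 1)) h1

theorem nu_prim {σ : α → List Bool} (hσ : Primrec σ) : Primrec (fun x => nu (σ x)) :=
  Primrec.fst.comp (st_prim hσ)

theorem jj_prim {σ : α → List Bool} {T : α → ℕ} (hσ : Primrec σ) (hT : Primrec T) :
    Primrec (fun x => jj (σ x) (T x)) :=
  p_div (p_mul (nu_prim hσ) (pow2 (p_u2 (p_u2 (p_u2 hT)))))
    (pow2 (p_add (p_mul (p_c 2) (Primrec.list_length.comp hσ)) (p_c 1)))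

theorem sub_prim {σ : α → List Bool} {T : α → ℕ} (hσ : Primrec σ) (hT : Primrec T) :
    PrimrecPred (fun x => sub (σ x) (T x)) := by
  have he : Primrec (fun x => ce (T x)) := p_u1 hT
  have ha : Primrec (fun x => ca (T x)) := p_u1 (p_u2 hT)
  have hb : Primrec (fun x => cb (T x)) := p_u1 (p_u2 (p_u2 hT))
  have hc : Primrec (fun x => cc (T x)) := p_u2 (p_u2 (p_u2 hT))
  have hl : Primrec (fun x => (σ x).length) := Primrec.list_length.comp hσ
  exact (okk_prim he ha hb hc (jj_prim hσ hT)).and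
    (p_lt (p_mul (p_add (p_add (nu_prim hσ) (pow2 hl)) (p_c 1)) (pow2 hc))
      (p_mul (p_add (jj_prim hσ hT) (p_c 1)) (pow2 (p_add (p_mul (p_c 2) hl) (p_c 1)))))

theorem Rp_prim : PrimrecRel Rp := by
  apply ex_lt (f := fun y : List Bool × ℕ => y.1.length + 1)
    (p := fun (y : List Bool × ℕ) T => ev T y.2 ∧ sub y.1 T)
    (p_add (Primrec.list_length.comp Primrec.fst) (p_c 1))
  exact (ev_prim Primrec.snd (Primrec.snd.comp Primrec.fst)).and
    (sub_prim (Primrec.fst.comp Primrec.fst) Primrec.snd)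

theorem RR_prim : Primrec₂ RR := by
  classical
  refine Rp_prim.decide.of_eq (fun σ s => ?_)
  have h := RR_iff (σ := σ) (s := s)
  by_cases h1 : Rp σ s
  · rw [decide_eq_true h1, h.2 h1]
  · rw [decide_eq_false h1]
    symm
    rw [Bool.eq_false_iff]
    exact fun h2 => h1 (h.1 h2)

end general

end Pool.Agent.H80.Luzin
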