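import Mathlib
import Pool.Agent.H80.Luzin.Comp

/-!
# Computability of the function
-/

namespace Pool.Agent.H80.Luzin

open Set

variable {R : List Bool → ℕ → Bool}

theorem pre_eq_map (x : ℕ → Bool) (n : ℕ) : pre x n = (List.range n).map x := by
  induction n with
  | zero => rfl
  | succ n ih => rw [pre_succ, ih, List.range_succ, List.map_append]; rfl

theorem fi_eq (x : ℕ → Bool) (t i : ℕ) (w : List Bool) :
    fi R x t i w = (List.range' i w.length).findIdx (fun j => act R (pre x j) t) := by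
  induction w generalizing i with
  | nil => rfl
  | cons c w ih =>
    rw [fi, List.length_cons, List.range'_succ, List.findIdx_cons, ih]
    cases act R (pre x i) t <;> simp

/-- the merge index -/
def fidx (R : List Bool → ℕ → Bool) (σ : List Bool) (t : ℕ) (w : List Bool) : ℕ :=
  (List.range w.length).findIdx (fun j => act R (pre (ext σ) j) t)

theorem fidx_eq (σ : List Bool) (t : ℕ) (w : List Bool) :
    fi R (ext σ) t 0 w = fidx R σ t w := by
  rw [fi_eq, fidx, List.range_eq_range']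

/-- one step -/
def stp (R : List Bool → ℕ → Bool) (σ : List Bool) (t : ℕ) (w : List Bool) : List Bool :=
  if fidx R σ t w < w.length then w.take (fidx R σ t w) ++ w.drop (fidx R σ t w + 1)
  else w ++ [ext σ (t + w.length + 1)]

theorem slots_eq (σ : List Bool) (t : ℕ) :
    slots R (ext σ) t = Nat.rec [] (fun t w => stp R σ t w) t := by
  induction t with
  | zero => rfl
  | succ t ih =>
    have h : slots R (ext σ) (t + 1) = stp R σ t (slots R (ext σ) t) := by
      rw [slots, stp, fidx_eq, List.eraseIdx_eq_take_drop_succ]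
    rw [h, ih]

section prim

variable {α : Type*} [Primcodable α]

theorem act_prim (hR : Primrec₂ R) {s : α → List Bool} {t : α → ℕ} (hs : Primrec s)
    (ht : Primrec t) : Primrec (fun x => act R (s x) (t x)) := by
  have h1 : PrimrecPred (fun x => ∃ a < t x + 1, t x ≤ 2 * a + 1 ∧ R (s x) a = true) := by
    apply ex_lt (f := fun x => t x + 1) (p := fun x a => t x ≤ 2 * a + 1 ∧ R (s x) a = true)
      (p_add ht (p_c 1))
    exact (p_le (ht.comp Primrec.fst) (p_add (p_mul (p_c 2) Primrec.snd) (p_c 1))).and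
      (Primrec.eq.comp (hR.comp (hs.comp Primrec.fst) Primrec.snd) (Primrec.const true))
  exact h1.decide

theorem ext_prim {σ : α → List Bool} {n : α → ℕ} (hσ : Primrec σ) (hn : Primrec n) :
    Primrec (fun x => ext (σ x) (n x)) :=
  (Primrec.list_getD false).comp hσ hn

theorem pre_prim {σ : α → List Bool} {n : α → ℕ} (hσ : Primrec σ) (hn : Primrec n) :
    Primrec (fun x => pre (ext (σ x)) (n x)) := by
  have h := Primrec.list_map (Primrec.list_range.comp hn)
    (g := fun x j => ext (σ x) j) (ext_prim (hσ.comp Primrec.fst) Primrec.snd)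
  exact h.of_eq (fun x => (pre_eq_map _ _).symm)

theorem fidx_prim (hR : Primrec₂ R) {σ w : α → List Bool} {t : α → ℕ} (hσ : Primrec σ)
    (ht : Primrec t) (hw : Primrec w) : Primrec (fun x => fidx R (σ x) (t x) (w x)) := by
  apply Primrec.list_findIdx (f := fun x => List.range (w x).length)
    (p := fun x j => act R (pre (ext (σ x)) j) (t x))
    (Primrec.list_range.comp (Primrec.list_length.comp hw))
  exact act_prim hR (pre_prim (hσ.comp Primrec.fst) Primrec.snd) (ht.comp Primrec.fst)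

theorem stp_prim (hR : Primrec₂ R) {σ w : α → List Bool} {t : α → ℕ} (hσ : Primrec σ)
    (ht : Primrec t) (hw : Primrec w) : Primrec (fun x => stp R (σ x) (t x) (w x)) := by
  have h1 := fidx_prim hR hσ ht hw
  have h2 : Primrec (fun x => (w x).length) := Primrec.list_length.comp hw
  exact Primrec.ite (p_lt h1 h2)
    (Primrec.list_append.comp (Primrec.list_take.comp h1 hw)
      (Primrec.list_drop.comp (p_add h1 (p_c 1)) hw))
    (Primrec.list_concat.comp hw (ext_prim hσ (p_add (p_add ht h2) (p_c 1))))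

theorem slots_prim (hR : Primrec₂ R) {σ : α → List Bool} {t : α → ℕ} (hσ : Primrec σ)
    (ht : Primrec t) : Primrec (fun x => slots R (ext (σ x)) (t x)) := by
  have h1 : Primrec₂ (fun (x : α) (p : ℕ × List Bool) => stp R (σ x) p.1 p.2) :=
    stp_prim hR (hσ.comp Primrec.fst) (Primrec.fst.comp Primrec.snd)
      (Primrec.snd.comp Primrec.snd)
  have h4 : Primrec₂ (fun (x : α) (n : ℕ) =>
      (Nat.rec [] (fun t w => stp R (σ x) t w) n : List Bool)) :=
    Primrec.nat_rec (Primrec.const []) h1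
  exact (h4.comp Primrec.id ht).of_eq (fun x => (slots_eq _ _).symm)

theorem outb_prim (hR : Primrec₂ R) {σ : α → List Bool} {t : α → ℕ} (hσ : Primrec σ)
    (ht : Primrec t) : Primrec (fun x => outb R (ext (σ x)) (t x)) := by
  have h1 := slots_prim hR hσ ht
  have h2 : Primrec (fun x => (slots R (ext (σ x)) (t x)).length) := Primrec.list_length.comp h1
  have h3 := fidx_prim hR hσ ht h1
  have h4 := Primrec.ite (p_lt h3 h2) ((Primrec.list_getD false).comp h1 h3)
    (ext_prim hσ (p_add ht h2))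
  refine h4.of_eq (fun x => ?_)
  rw [outb, fidx_eq]

theorem allL_prim : Primrec allL := by
  have h1 : Primrec₂ (fun (_ : ℕ) (L : List (List Bool)) =>
      L.flatMap (fun σ => [σ ++ [false], σ ++ [true]])) := by
    apply Primrec.list_flatMap (f := fun y : ℕ × List (List Bool) => y.2)
      (g := fun (_ : ℕ × List (List Bool)) (σ : List Bool) => [σ ++ [false], σ ++ [true]])
      Primrec.snd
    have h3 : ∀ b : Bool, Primrec (fun y : (ℕ × List (List Bool)) × List Bool => y.2 ++ [b]) :=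
      fun b => Primrec.list_concat.comp Primrec.snd (Primrec.const b)
    exact Primrec.list_cons.comp (h3 false)
      (Primrec.list_cons.comp (h3 true) (Primrec.const []))
  have h2 := Primrec.nat_rec₁ [[]] h1
  refine h2.of_eq (fun n => ?_)
  induction n with
  | zero => rfl
  | succ n ih => rw [allL, ← ih]

/-- numerator of the bump at a dyadic rational -/
def bn (i j : ℕ) (σ : List Bool) : ℕ :=
  2 ^ (j + 1) - max (nu σ * 2 ^ j - i * 2 ^ (2 * σ.length + 1))
    (i * 2 ^ (2 * σ.length + 1) - (nu σ + 2 ^ σ.length + 1) * 2 ^ j)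

theorem bn_prim {i j : α → ℕ} {σ : α → List Bool} (hi : Primrec i) (hj : Primrec j)
    (hσ : Primrec σ) : Primrec (fun x => bn (i x) (j x) (σ x)) := by
  have hl : Primrec (fun x => (σ x).length) := Primrec.list_length.comp hσ
  have h1 := p_mul (nu_prim hσ) (pow2 hj)
  have h2 := p_mul hi (pow2 (p_add (p_mul (p_c 2) hl) (p_c 1)))
  have h3 := p_mul (p_add (p_add (nu_prim hσ) (pow2 hl)) (p_c 1)) (pow2 hj)
  exact p_sub (pow2 (p_add hj (p_c 1))) (Primrec.nat_max.comp (p_sub h1 h2) (p_sub h2 h3))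

/-- numerator of a component at a dyadic rational -/
def hn (R : List Bool → ℕ → Bool) (i j t : ℕ) : ℕ :=
  ((allL (2 * t + 2)).map (fun σ => if outb R (ext σ) t = true then bn i j σ else 0)).foldr max 0

theorem hn_prim (hR : Primrec₂ R) {i j t : α → ℕ} (hi : Primrec i) (hj : Primrec j)
    (ht : Primrec t) : Primrec (fun x => hn R (i x) (j x) (t x)) := by
  have h1 : Primrec (fun x => (allL (2 * t x + 2)).map
      (fun σ => if outb R (ext σ) (t x) = true then bn (i x) (j x) σ else 0)) := by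
    apply Primrec.list_map (f := fun x => allL (2 * t x + 2))
      (g := fun x σ => if outb R (ext σ) (t x) = true then bn (i x) (j x) σ else 0)
      (allL_prim.comp (p_add (p_mul (p_c 2) ht) (p_c 2)))
    exact Primrec.ite (Primrec.eq.comp (outb_prim hR Primrec.snd (ht.comp Primrec.fst))
      (Primrec.const true)) (bn_prim (hi.comp Primrec.fst) (hj.comp Primrec.fst) Primrec.snd)
      (p_c 0)
  exact Primrec.list_foldr h1 (Primrec.const 0)
    (Primrec.nat_max.comp (Primrec.fst.comp Primrec.snd) (Primrec.snd.comp Primrec.snd)).to₂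

/-- numerator of the partial sums -/
def acc (R : List Bool → ℕ → Bool) (i j : ℕ) : ℕ → ℕ
  | 0 => 0
  | n + 1 => 2 * acc R i j n + hn R i j n

theorem acc_prim (hR : Primrec₂ R) {i j n : α → ℕ} (hi : Primrec i) (hj : Primrec j)
    (hn' : Primrec n) : Primrec (fun x => acc R (i x) (j x) (n x)) := by
  have h1 : Primrec₂ (fun (x : α) (p : ℕ × ℕ) => 2 * p.2 + hn R (i x) (j x) p.1) :=
    p_add (p_mul (p_c 2) (Primrec.snd.comp Primrec.snd))
      (hn_prim hR (hi.comp Primrec.fst) (hj.comp Primrec.fst) (Primrec.fst.comp Primrec.snd))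
  have h4 : Primrec₂ (fun (x : α) (n : ℕ) =>
      (Nat.rec 0 (fun t v => 2 * v + hn R (i x) (j x) t) n : ℕ)) :=
    Primrec.nat_rec (Primrec.const 0) h1
  refine (h4.comp Primrec.id hn').of_eq (fun x => ?_)
  simp only [id_eq]
  generalize n x = m
  induction m with
  | zero => rfl
  | succ m ih => rw [acc, ← ih]

end prim

theorem bump_dyadic (i j : ℕ) (σ : List Bool) :
    bump σ ((i : ℝ) / 2 ^ j) = (bn i j σ : ℝ) / 2 ^ (j + 1) := by
  have hsub : ∀ a b : ℕ, ((a - b : ℕ) : ℝ) = max 0 ((a : ℝ) - b) := by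
    intro a b
    rcases le_total b a with h | h
    · rw [Nat.cast_sub h, max_eq_right]
      have : (b : ℝ) ≤ a := by exact_mod_cast h
      linarith
    · rw [Nat.sub_eq_zero_of_le h, max_eq_left]
      · simp
      · have : (a : ℝ) ≤ b := by exact_mod_cast h
        linarith
  have hP : (0 : ℝ) < 2 ^ (j + 1) := by positivity
  have h4 : (4 : ℝ) ^ σ.length * 2 ^ (j + 1) = 2 ^ (2 * σ.length + 1) * 2 ^ j := by
    rw [show (4 : ℝ) = 2 ^ 2 by norm_num, ← pow_mul, pow_succ, pow_succ]
    ring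
  have hpos1 : (0 : ℝ) < 2 ^ (2 * σ.length + 1) := by positivity
  have hpos2 : (0 : ℝ) < 2 ^ j := by positivity
  have h4' : (0 : ℝ) ≤ 4 ^ σ.length * 2 ^ (j + 1) := by positivity
  rw [eq_div_iff hP.ne', bn, hsub, bump, max_mul_of_nonneg _ _ hP.le, zero_mul]
  congr 1
  push_cast
  rw [hsub, hsub]
  push_cast
  have h5 : (1 - 4 ^ σ.length * max 0 (max (lo σ - i / 2 ^ j) (i / 2 ^ j - hi σ))) * 2 ^ (j + 1) =
      2 ^ (j + 1) - 4 ^ σ.length * 2 ^ (j + 1) *
        max 0 (max (lo σ - i / 2 ^ j) (i / 2 ^ j - hi σ)) := by ring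
  rw [h5]
  congr 1
  rw [mul_max_of_nonneg _ _ h4', mul_zero, mul_max_of_nonneg _ _ h4', h4]
  have h6 : 2 ^ (2 * σ.length + 1) * 2 ^ j * (lo σ - i / 2 ^ j) =
      (nu σ : ℝ) * 2 ^ j - i * 2 ^ (2 * σ.length + 1) := by
    rw [lo]
    field_simp
  have h7 : 2 ^ (2 * σ.length + 1) * 2 ^ j * ((i : ℝ) / 2 ^ j - hi σ) =
      i * 2 ^ (2 * σ.length + 1) - (nu σ + 2 ^ σ.length + 1) * 2 ^ j := by
    rw [hi]
    field_simp
  rw [h6, h7]
  rw [← max_max_max_comm, max_self]

theorem mx_cast (P : ℝ) (hP : 0 < P) {α : Type*} (L : List α) (F : α → ℝ)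
    (G : α → ℕ) (h : ∀ a, F a = (G a : ℝ) / P) :
    mx (L.map F) = (((L.map G).foldr max 0 : ℕ) : ℝ) / P := by
  induction L with
  | nil => simp [mx]
  | cons a L ih =>
    have h1 : mx ((a :: L).map F) = max (F a) (mx (L.map F)) := rfl
    have h2 : ((a :: L).map G).foldr max 0 = max (G a) ((L.map G).foldr max 0) := rfl
    rw [h1, h2, ih, h, Nat.cast_max, max_div_div_right hP.le]

theorem hh_dyadic (i j t : ℕ) : hh R t ((i : ℝ) / 2 ^ j) = (hn R i j t : ℝ) / 2 ^ (j + 1) := by
  rw [hh, hn]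
  apply mx_cast _ (by positivity)
  intro σ
  rw [bo]
  split_ifs
  · exact bump_dyadic i j σ
  · simp

theorem ps_dyadic (i j n : ℕ) :
    ps R n ((i : ℝ) / 2 ^ j) = (acc R i j n : ℝ) / 2 ^ (j + 1) / 2 ^ n := by
  induction n with
  | zero => simp [ps, acc]
  | succ n ih =>
    have h1 : ps R (n + 1) ((i : ℝ) / 2 ^ j) =
        ps R n ((i : ℝ) / 2 ^ j) + hh R n ((i : ℝ) / 2 ^ j) * (1 / 2) ^ (n + 1) := by
      rw [ps, ps, Finset.sum_range_succ]
    rw [h1, ih, hh_dyadic, acc]
    push_cast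
    rw [div_pow, one_pow, pow_succ (2 : ℝ) n]
    field_simp

theorem cast_prim : Primrec (fun n : ℕ => (n : ℤ)) := by
  rw [← Primrec.encode_iff]
  have h : Primrec (fun n : ℕ => 2 * n) := p_mul (p_c 2) Primrec.id
  exact h.of_eq (fun n => rfl)

/-- the function is computable -/
theorem ff_computable (hR : Primrec₂ R) : IsComputableOnUnit (ff R) := by
  constructor
  · refine ⟨fun p => ((acc R p.1 p.2.1 p.2.2 / 2 ^ (p.2.1 + 1) + 1 : ℕ) : ℤ), ?_, ?_⟩
    · apply Primrec.to_comp
      apply cast_prim.comp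
      have hi : Primrec (fun p : ℕ × ℕ × ℕ => p.1) := Primrec.fst
      have hj : Primrec (fun p : ℕ × ℕ × ℕ => p.2.1) := Primrec.fst.comp Primrec.snd
      have hn' : Primrec (fun p : ℕ × ℕ × ℕ => p.2.2) := Primrec.snd.comp Primrec.snd
      exact p_add (p_div (acc_prim hR hi hj hn') (pow2 (p_add hj (p_c 1)))) (p_c 1)
    · intro i j n _
      have h1 := ps_le_ff R n ((i : ℝ) / 2 ^ j)
      have h2 := ff_le_ps R n ((i : ℝ) / 2 ^ j)
      rw [ps_dyadic] at h1 h2
      rw [div_pow, one_pow] at h2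
      simp only
      rw [Int.cast_natCast, Nat.cast_add, Nat.cast_one]
      have h34 : ((acc R i j n / 2 ^ (j + 1) : ℕ) : ℝ) ≤ (acc R i j n : ℝ) / 2 ^ (j + 1) ∧
          (acc R i j n : ℝ) / 2 ^ (j + 1) < ((acc R i j n / 2 ^ (j + 1) : ℕ) : ℝ) + 1 := by
        have h := Nat.floor_div_eq_div (K := ℝ) (acc R i j n) (2 ^ (j + 1))
        rw [← h]
        push_cast
        exact ⟨Nat.floor_le (by positivity), Nat.lt_floor_add_one _⟩
      obtain ⟨h3, h4⟩ := h34
      generalize ((acc R i j n / 2 ^ (j + 1) : ℕ) : ℝ) = v at h3 h4 ⊢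
      generalize (acc R i j n : ℝ) / 2 ^ (j + 1) = u at h1 h2 h3 h4
      have hP : (0 : ℝ) < 2 ^ n := by positivity
      have h5 : u / 2 ^ n ≤ (v + 1) / 2 ^ n := by gcongr
      have h6 : (v + 1) / 2 ^ n ≤ u / 2 ^ n + 1 / 2 ^ n := by
        rw [← add_div]
        gcongr
      rw [abs_le]
      constructor
      · linarith
      · have h7 : (u + 1) / 2 ^ n ≤ (v + 1 + 1) / 2 ^ n := by gcongr
        rw [add_div, add_div (v + 1)] at h7
        linarith
  · refine ⟨fun n => 5 * (n + 1), Primrec.to_comp (p_mul (p_c 5) (p_add Primrec.id (p_c 1))), ?_⟩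
    intro n x _ y _ hxy
    refine (ff_mod R (n + 1) x y).trans ?_
    have h1 : (16 : ℝ) ^ (n + 1) * |x - y| ≤ 16 ^ (n + 1) * (1 / 2 ^ (5 * (n + 1))) := by gcongr
    have h2 : (16 : ℝ) ^ (n + 1) * (1 / 2 ^ (5 * (n + 1))) = (1 / 2) ^ (n + 1) := by
      rw [pow_mul, ← one_div_pow, ← mul_pow]
      norm_num
    rw [h2] at h1
    have h3 : (1 / 2 : ℝ) ^ (n + 1) + (1 / 2) ^ (n + 1) = 1 / 2 ^ n := by
      rw [← one_div_pow, pow_succ]
      ring
    linarith

end Pool.Agent.H80.Luzin
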